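import Mathlib

/-! # Metric measure spaces, box distance and observable distance -/

set_option autoImplicit false

open MeasureTheory ProbabilityTheory Set unitInterval Topology

namespace Pool.Agent.V1215.MMS

/-- An mm-space: a complete separable metric space with a Borel probability measure. -/
structure MM where
  X : Type
  [metric : MetricSpace X]
  [complete : CompleteSpace X]
  [separable : SecondCountableTopology X]
  [meas : MeasurableSpace X]
  [borel : BorelSpace X]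
  μ : Measure X
  [prob : IsProbabilityMeasure μ]

attribute [instance] MM.metric MM.complete MM.separable MM.meas MM.borel MM.prob

/-- A parameter of `Z`: a Borel map `φ` from the unit interval which maps Lebesgue measure to the
measure of `Z`. -/
def IsParam (Z : MM) (φ : I → Z.X) : Prop := Measurable φ ∧ volume.map φ = Z.μ

/-- `ε` is admissible in the definition of the box distance of `X` and `Y`. -/
def BoxLE (ε : ℝ) (X Y : MM) : Prop :=
  ∃ (φ : I → X.X) (ψ : I → Y.X) (J : Set I), IsParam X φ ∧ IsParam Y ψ ∧ MeasurableSet J ∧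
    1 - ε ≤ volume.real J ∧
    ∀ s ∈ J, ∀ t ∈ J, |dist (φ s) (φ t) - dist (ψ s) (ψ t)| ≤ ε

/-- `ε` is admissible in the definition of the observable distance of `X` and `Y`: for suitable
parameters the sets of the functions `f ∘ φ` and `g ∘ ψ`, with `f`, `g` 1-Lipschitz, are contained in
the closed `ε`-neighbourhoods of each other, for the Ky Fan metric. -/
def ConcLE (ε : ℝ) (X Y : MM) : Prop :=
  ∃ (φ : I → X.X) (ψ : I → Y.X), IsParam X φ ∧ IsParam Y ψ ∧
    (∀ f : X.X → ℝ, LipschitzWith 1 f → ∃ g : Y.X → ℝ, LipschitzWith 1 g ∧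
      volume.real {s | ε < |f (φ s) - g (ψ s)|} ≤ ε) ∧
    (∀ g : Y.X → ℝ, LipschitzWith 1 g → ∃ f : X.X → ℝ, LipschitzWith 1 f ∧
      volume.real {s | ε < |f (φ s) - g (ψ s)|} ≤ ε)

/-- The distance defined by a family of relations. -/
noncomputable def rdist (R : ℝ → MM → MM → Prop) (X Y : MM) : ℝ := sInf {ε | 0 ≤ ε ∧ R ε X Y}

/-- the box distance -/
noncomputable def box (X Y : MM) : ℝ := rdist BoxLE X Y

/-- the observable distance -/
noncomputable def conc (X Y : MM) : ℝ := rdist ConcLE X Y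

lemma exists_param (Z : MM) : ∃ φ, IsParam Z φ := by
  have : Nonempty Z.X := nonempty_of_isProbabilityMeasure Z.μ
  obtain ⟨f, h1, h2⟩ := Measure.exists_measurable_map_eq Z.μ
  exact ⟨f, h1, h2⟩

/-- two parameters of the same space have a common refinement -/
lemma joining (Z : MM) {ψ ψ' : I → Z.X} (h : IsParam Z ψ) (h' : IsParam Z ψ') :
    ∃ a b : I → I, Measurable a ∧ Measurable b ∧ volume.map a = volume ∧ volume.map b = volume ∧
      ∀ᵐ s, ψ (a s) = ψ' (b s) := by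
  have : Nonempty Z.X := nonempty_of_isProbabilityMeasure Z.μ
  have hm : Measurable fun s : I => (ψ' s, s) := h'.1.prodMk measurable_id
  set ρ : Measure (Z.X × I) := volume.map (fun s => (ψ' s, s)) with hρ
  have : IsProbabilityMeasure ρ := Measure.isProbabilityMeasure_map hm.aemeasurable
  have hfst : ρ.fst = Z.μ := by
    rw [hρ, Measure.fst, Measure.map_map measurable_fst hm, ← h'.2]
    rfl
  have hsnd : ρ.snd = volume := by
    rw [hρ, Measure.snd, Measure.map_map measurable_snd hm]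
    have : (Prod.snd ∘ fun s : I => (ψ' s, s)) = id := rfl
    rw [this, Measure.map_id]
  have hdis : ρ.fst ⊗ₘ ρ.condKernel = ρ := ρ.disintegrate ρ.condKernel
  set κ : Kernel Z.X I := ρ.condKernel with hκ
  set P : Measure (I × I) := volume ⊗ₘ (κ.comap ψ h.1) with hP
  have hPfst : P.fst = volume := Measure.fst_compProd _ _
  have hmp : Measurable (Prod.map ψ (id : I → I)) := h.1.prodMap measurable_id
  have hmap : P.map (Prod.map ψ id) = ρ := by
    ext s hs
    rw [Measure.map_apply hmp hs, hP, Measure.compProd_apply (hmp hs)]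
    conv_rhs => rw [← hdis]
    rw [Measure.compProd_apply hs, hfst]
    have e1 : ∫⁻ y, κ y (Prod.mk y ⁻¹' s) ∂Z.μ = ∫⁻ y, κ y (Prod.mk y ⁻¹' s) ∂(volume.map ψ) := by
      rw [h.2]
    rw [e1, lintegral_map (Kernel.measurable_kernel_prodMk_left hs) h.1]
    rfl
  have hPsnd : P.snd = volume := by
    rw [← hsnd, ← hmap, Measure.snd, Measure.snd, Measure.map_map measurable_snd hmp]
    rfl
  have hae : ∀ᵐ w ∂P, ψ w.1 = ψ' w.2 := by
    have h1 : ∀ᵐ w ∂ρ, w.1 = ψ' w.2 := by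
      rw [hρ, ae_map_iff hm.aemeasurable]
      · exact Filter.Eventually.of_forall fun s => rfl
      · exact measurableSet_eq_fun measurable_fst (h'.1.comp measurable_snd)
    rw [← hmap, ae_map_iff hmp.aemeasurable] at h1
    · exact h1
    · exact measurableSet_eq_fun measurable_fst (h'.1.comp measurable_snd)
  have : IsProbabilityMeasure P := by rw [hP]; infer_instance
  obtain ⟨Θ, hΘ, hΘP⟩ := Measure.exists_measurable_map_eq P
  refine ⟨fun s => (Θ s).1, fun s => (Θ s).2, hΘ.fst, hΘ.snd, ?_, ?_, ?_⟩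
  · have e1 : (volume : Measure I).map (fun s => (Θ s).1) = P.fst := by
      rw [← hΘP, Measure.fst, Measure.map_map measurable_fst hΘ]
      rfl
    exact e1.trans hPfst
  · have e1 : (volume : Measure I).map (fun s => (Θ s).2) = P.snd := by
      rw [← hΘP, Measure.snd, Measure.map_map measurable_snd hΘ]
      rfl
    exact e1.trans hPsnd
  · rw [← hΘP, ae_map_iff hΘ.aemeasurable] at hae
    · exact hae
    · exact measurableSet_eq_fun (h.1.comp measurable_fst) (h'.1.comp measurable_snd)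

lemma IsParam.comp {Z : MM} {φ : I → Z.X} (h : IsParam Z φ) {a : I → I} (ha : Measurable a)
    (hav : volume.map a = volume) : IsParam Z (φ ∘ a) := by
  refine ⟨h.1.comp ha, ?_⟩
  rw [← Measure.map_map h.1 ha, hav, h.2]

lemma real_preimage {a : I → I} (ha : Measurable a) (hav : (volume : Measure I).map a = volume)
    {S : Set I} (hS : MeasurableSet S) : volume.real (a ⁻¹' S) = volume.real S := by
  conv_rhs => rw [← hav]
  rw [Measure.real, Measure.real, Measure.map_apply ha hS]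

/-- A family of relations which defines a pseudometric of diameter at most one. -/
class IsRel (R : ℝ → MM → MM → Prop) : Prop where
  refl : ∀ X, R 0 X X
  symm : ∀ ε X Y, R ε X Y → R ε Y X
  tri : ∀ ε ε' X Y Z, 0 ≤ ε → 0 ≤ ε' → R ε X Y → R ε' Y Z → R (ε + ε') X Z
  mono : ∀ ε ε' X Y, 0 ≤ ε → ε ≤ ε' → R ε X Y → R ε' X Y
  one : ∀ X Y, R 1 X Y

instance : IsRel BoxLE where
  refl X := by
    obtain ⟨φ, hφ⟩ := exists_param X
    refine ⟨φ, φ, univ, hφ, hφ, MeasurableSet.univ, ?_, fun s _ t _ => by simp⟩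
    simp
  symm ε X Y := by
    rintro ⟨φ, ψ, J, h1, h2, h3, h4, h5⟩
    refine ⟨ψ, φ, J, h2, h1, h3, h4, fun s hs t ht => ?_⟩
    rw [abs_sub_comm]
    exact h5 s hs t ht
  tri ε ε' X Y Z hε hε' := by
    rintro ⟨φ, ψ, J, h1, h2, h3, h4, h5⟩ ⟨ψ', χ, J', h1', h2', h3', h4', h5'⟩
    obtain ⟨a, b, ha, hb, hav, hbv, hab⟩ := joining Y h2 h1'
    have hE : MeasurableSet {s | ψ (a s) = ψ' (b s)} :=
      measurableSet_eq_fun (h2.1.comp ha) (h1'.1.comp hb)
    refine ⟨φ ∘ a, χ ∘ b, (a ⁻¹' J ∩ b ⁻¹' J') ∩ {s | ψ (a s) = ψ' (b s)}, h1.comp ha hav,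
      h2'.comp hb hbv, ((ha h3).inter (hb h3')).inter hE, ?_, ?_⟩
    · have e1 : volume.real ((a ⁻¹' J ∩ b ⁻¹' J') ∩ {s | ψ (a s) = ψ' (b s)}) =
          volume.real (a ⁻¹' J ∩ b ⁻¹' J') := by
        rw [Measure.real, Measure.real]
        congr 1
        refine measure_congr ?_
        filter_upwards [hab] with s hs
        show (_ ∧ _) = _
        simp only [hs, eq_iff_iff]
        exact ⟨fun h => h.1, fun h => ⟨h, hs⟩⟩
      rw [e1]
      have e2 : volume.real (a ⁻¹' J ∩ b ⁻¹' J') + volume.real (a ⁻¹' J ∪ b ⁻¹' J') =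
          volume.real (a ⁻¹' J) + volume.real (b ⁻¹' J') := by
        rw [add_comm]
        exact measureReal_union_add_inter (hb h3')
      have e3 : volume.real (a ⁻¹' J ∪ b ⁻¹' J') ≤ 1 := measureReal_le_one
      rw [real_preimage ha hav h3, real_preimage hb hbv h3'] at e2
      linarith
    · rintro s ⟨⟨hs1, hs2⟩, hs3⟩ t ⟨⟨ht1, ht2⟩, ht3⟩
      have e1 := h5 (a s) hs1 (a t) ht1
      have e2 := h5' (b s) hs2 (b t) ht2
      have hs3' : ψ (a s) = ψ' (b s) := hs3
      have ht3' : ψ (a t) = ψ' (b t) := ht3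
      rw [hs3', ht3'] at e1
      calc |dist (φ (a s)) (φ (a t)) - dist (χ (b s)) (χ (b t))|
          = |(dist (φ (a s)) (φ (a t)) - dist (ψ' (b s)) (ψ' (b t))) +
            (dist (ψ' (b s)) (ψ' (b t)) - dist (χ (b s)) (χ (b t)))| := by congr 1; ring
        _ ≤ _ := abs_add_le _ _
        _ ≤ ε + ε' := add_le_add e1 e2
  mono ε ε' X Y h0 h := by
    rintro ⟨φ, ψ, J, h1, h2, h3, h4, h5⟩
    exact ⟨φ, ψ, J, h1, h2, h3, by linarith, fun s hs t ht => (h5 s hs t ht).trans h⟩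
  one X Y := by
    obtain ⟨φ, hφ⟩ := exists_param X
    obtain ⟨ψ, hψ⟩ := exists_param Y
    exact ⟨φ, ψ, ∅, hφ, hψ, MeasurableSet.empty, by simp, fun s hs => hs.elim⟩

lemma meas_dev {X Y : MM} {φ : I → X.X} {ψ : I → Y.X} (hφ : IsParam X φ) (hψ : IsParam Y ψ)
    {f : X.X → ℝ} {g : Y.X → ℝ} (hf : LipschitzWith 1 f) (hg : LipschitzWith 1 g) (ε : ℝ) :
    MeasurableSet {s | ε < |f (φ s) - g (ψ s)|} := by
  have h1 : Measurable fun s => |f (φ s) - g (ψ s)| :=
    ((hf.continuous.measurable.comp hφ.1).sub (hg.continuous.measurable.comp hψ.1)).abs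
  exact measurableSet_lt measurable_const h1

lemma conc_tri_aux {X Y Z : MM} {ε ε' : ℝ} {φ : I → X.X} {ψ ψ' : I → Y.X} {χ : I → Z.X}
    (h1 : IsParam X φ) (h2 : IsParam Y ψ) (h1' : IsParam Y ψ') (h2' : IsParam Z χ)
    {a b : I → I} (ha : Measurable a) (hb : Measurable b) (hav : volume.map a = volume)
    (hbv : volume.map b = volume) (hab : ∀ᵐ s, ψ (a s) = ψ' (b s))
    {f : X.X → ℝ} {g : Y.X → ℝ} {k : Z.X → ℝ} (hf : LipschitzWith 1 f) (hg : LipschitzWith 1 g)
    (hk : LipschitzWith 1 k) (e1 : volume.real {s | ε < |f (φ s) - g (ψ s)|} ≤ ε)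
    (e2 : volume.real {s | ε' < |g (ψ' s) - k (χ s)|} ≤ ε') :
    volume.real {s | ε + ε' < |f (φ (a s)) - k (χ (b s))|} ≤ ε + ε' := by
  have m1 := meas_dev h1 h2 hf hg ε
  have m2 := meas_dev h1' h2' hg hk ε'
  have hsub : volume {s | ε + ε' < |f (φ (a s)) - k (χ (b s))|} ≤
      volume (a ⁻¹' {s | ε < |f (φ s) - g (ψ s)|} ∪ b ⁻¹' {s | ε' < |g (ψ' s) - k (χ s)|}) := by
    refine measure_mono_ae ?_
    filter_upwards [hab] with s hs hlt
    by_contra hcon
    have hcon1 : ¬ (ε < |f (φ (a s)) - g (ψ (a s))|) := fun h => hcon (Or.inl h)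
    have hcon2 : ¬ (ε' < |g (ψ' (b s)) - k (χ (b s))|) := fun h => hcon (Or.inr h)
    have hlt' : ε + ε' < |f (φ (a s)) - k (χ (b s))| := hlt
    rw [not_lt] at hcon1 hcon2
    rw [hs] at hcon1
    have e3 : |f (φ (a s)) - k (χ (b s))| ≤ |f (φ (a s)) - g (ψ' (b s))| +
        |g (ψ' (b s)) - k (χ (b s))| := abs_sub_le _ _ _
    linarith
  have e4 : volume.real {s | ε + ε' < |f (φ (a s)) - k (χ (b s))|} ≤
      volume.real (a ⁻¹' {s | ε < |f (φ s) - g (ψ s)|} ∪ b ⁻¹' {s | ε' < |g (ψ' s) - k (χ s)|}) :=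
    ENNReal.toReal_mono (measure_ne_top _ _) hsub
  refine e4.trans ((measureReal_union_le _ _).trans ?_)
  rw [real_preimage ha hav m1, real_preimage hb hbv m2]
  exact add_le_add e1 e2

instance : IsRel ConcLE where
  refl X := by
    obtain ⟨φ, hφ⟩ := exists_param X
    refine ⟨φ, φ, hφ, hφ, fun f hf => ⟨f, hf, ?_⟩, fun f hf => ⟨f, hf, ?_⟩⟩ <;> simp
  symm ε X Y := by
    rintro ⟨φ, ψ, h1, h2, h3, h4⟩
    refine ⟨ψ, φ, h2, h1, fun g hg => ?_, fun f hf => ?_⟩
    · obtain ⟨f, hf, h⟩ := h4 g hg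
      refine ⟨f, hf, ?_⟩
      simpa only [abs_sub_comm] using h
    · obtain ⟨g, hg, h⟩ := h3 f hf
      refine ⟨g, hg, ?_⟩
      simpa only [abs_sub_comm] using h
  tri ε ε' X Y Z hε hε' := by
    rintro ⟨φ, ψ, h1, h2, h3, h4⟩ ⟨ψ', χ, h1', h2', h3', h4'⟩
    obtain ⟨a, b, ha, hb, hav, hbv, hab⟩ := joining Y h2 h1'
    refine ⟨φ ∘ a, χ ∘ b, h1.comp ha hav, h2'.comp hb hbv, fun f hf => ?_, fun k hk => ?_⟩
    · obtain ⟨g, hg, e1⟩ := h3 f hf
      obtain ⟨k, hk, e2⟩ := h3' g hg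
      exact ⟨k, hk, conc_tri_aux h1 h2 h1' h2' ha hb hav hbv hab hf hg hk e1 e2⟩
    · obtain ⟨g, hg, e2⟩ := h4' k hk
      obtain ⟨f, hf, e1⟩ := h4 g hg
      exact ⟨f, hf, conc_tri_aux h1 h2 h1' h2' ha hb hav hbv hab hf hg hk e1 e2⟩
  mono ε ε' X Y h0 h := by
    rintro ⟨φ, ψ, h1, h2, h3, h4⟩
    refine ⟨φ, ψ, h1, h2, fun f hf => ?_, fun g hg => ?_⟩
    · obtain ⟨g, hg, e⟩ := h3 f hf
      refine ⟨g, hg, (measureReal_mono ?_).trans (e.trans h)⟩
      intro s hs
      exact lt_of_le_of_lt h hs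
    · obtain ⟨f, hf, e⟩ := h4 g hg
      refine ⟨f, hf, (measureReal_mono ?_).trans (e.trans h)⟩
      intro s hs
      exact lt_of_le_of_lt h hs
  one X Y := by
    obtain ⟨φ, hφ⟩ := exists_param X
    obtain ⟨ψ, hψ⟩ := exists_param Y
    exact ⟨φ, ψ, hφ, hψ, fun f hf => ⟨fun _ => 0, LipschitzWith.const' 0, measureReal_le_one⟩,
      fun f hf => ⟨fun _ => 0, LipschitzWith.const' 0, measureReal_le_one⟩⟩

section
variable {R : ℝ → MM → MM → Prop} [IsRel R]

lemma rset_nonempty (X Y : MM) : {ε | 0 ≤ ε ∧ R ε X Y}.Nonempty := ⟨1, zero_le_one, IsRel.one X Y⟩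

lemma rset_bdd (X Y : MM) : BddBelow {ε | 0 ≤ ε ∧ R ε X Y} := ⟨0, fun _ h => h.1⟩

lemma rel_of_lt {X Y : MM} {ε : ℝ} (h : rdist R X Y < ε) : R ε X Y := by
  obtain ⟨δ, ⟨h0, h1⟩, h2⟩ := exists_lt_of_csInf_lt (rset_nonempty X Y) h
  exact IsRel.mono δ ε X Y h0 h2.le h1

lemma rdist_le {X Y : MM} {ε : ℝ} (h0 : 0 ≤ ε) (h : R ε X Y) : rdist R X Y ≤ ε :=
  csInf_le (rset_bdd X Y) ⟨h0, h⟩

lemma rdist_nonneg (X Y : MM) : 0 ≤ rdist R X Y :=
  le_csInf (rset_nonempty X Y) fun _ h => h.1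

/-- the type of mm-spaces, to be equipped with the pseudometric defined by `R` -/
def Sp (_ : ℝ → MM → MM → Prop) : Type 1 := MM

noncomputable instance : PseudoMetricSpace (Sp R) where
  dist X Y := rdist R X Y
  dist_self X := le_antisymm (rdist_le le_rfl (IsRel.refl (R := R) X)) (rdist_nonneg (R := R) _ _)
  dist_comm X Y := by
    show rdist R X Y = rdist R Y X
    unfold rdist
    congr 1
    ext ε
    exact ⟨fun h => ⟨h.1, IsRel.symm _ _ _ h.2⟩, fun h => ⟨h.1, IsRel.symm _ _ _ h.2⟩⟩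
  dist_triangle X Y Z := by
    show rdist R X Z ≤ rdist R X Y + rdist R Y Z
    refine le_of_forall_pos_lt_add fun ε hε => ?_
    have h1 : R (rdist R X Y + ε / 4) X Y := rel_of_lt (by linarith)
    have h2 : R (rdist R Y Z + ε / 4) Y Z := rel_of_lt (by linarith)
    have p1 := rdist_nonneg (R := R) X Y
    have p2 := rdist_nonneg (R := R) Y Z
    have h3 := rdist_le (R := R) (by linarith)
      (IsRel.tri _ _ X Y Z (by linarith) (by linarith) h1 h2)
    linarith

end

end Pool.Agent.V1215.MMS
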