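import Pool.Agent.V1215.MMS.M1

/-! # Scaling and products -/

set_option autoImplicit false

open MeasureTheory ProbabilityTheory Set unitInterval Topology

namespace Pool.Agent.V1215.MMS

/-- the metric space structure defined by `ρ` -/
@[reducible] noncomputable def rawMetric (W : Type) (ρ : W → W → ℝ) (h0 : ∀ x, ρ x x = 0)
    (hs : ∀ x y, ρ x y = ρ y x) (ht : ∀ x y z, ρ x z ≤ ρ x y + ρ y z)
    (h1 : ∀ x y, ρ x y = 0 → x = y) : MetricSpace W :=
  { dist := ρ
    dist_self := h0
    dist_comm := hs
    dist_triangle := ht
    eq_of_dist_eq_zero := fun h => h1 _ _ h }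

lemma raw_unif (W : Type) [m : MetricSpace W] (ρ : W → W → ℝ) (h0 : ∀ x, ρ x x = 0)
    (hs : ∀ x y, ρ x y = ρ y x) (ht : ∀ x y z, ρ x z ≤ ρ x y + ρ y z)
    (hz : ∀ x y, ρ x y = 0 → x = y) (c C : ℝ) (hc : 0 < c)
    (hC : 0 < C) (h1 : ∀ x y, c * dist x y ≤ ρ x y) (h2 : ∀ x y, ρ x y ≤ C * dist x y) :
    @uniformity W m.toPseudoMetricSpace.toUniformSpace =
      @uniformity W (rawMetric W ρ h0 hs ht hz).toPseudoMetricSpace.toUniformSpace := by
  refine le_antisymm ?_ ?_
  · refine (@Metric.uniformity_basis_dist W
      (rawMetric W ρ h0 hs ht hz).toPseudoMetricSpace).ge_iff.2 fun ε hε => ?_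
    refine Filter.mem_of_superset (@Metric.dist_mem_uniformity W m.toPseudoMetricSpace _
      (div_pos hε hC)) ?_
    rintro ⟨x, y⟩ hxy
    have h3 : m.dist x y < ε / C := hxy
    show ρ x y < ε
    have h4 : ρ x y ≤ C * m.dist x y := h2 x y
    have h5 : C * m.dist x y < ε := by
      rw [lt_div_iff₀ hC] at h3
      linarith
    linarith
  · refine (@Metric.uniformity_basis_dist W m.toPseudoMetricSpace).ge_iff.2 fun ε hε => ?_
    refine Filter.mem_of_superset (@Metric.dist_mem_uniformity W
      (rawMetric W ρ h0 hs ht hz).toPseudoMetricSpace _ (mul_pos hc hε)) ?_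
    rintro ⟨x, y⟩ hxy
    have h3 : ρ x y < c * ε := hxy
    show m.dist x y < ε
    have h4 : c * m.dist x y ≤ ρ x y := h1 x y
    exact lt_of_mul_lt_mul_left (lt_of_le_of_lt h4 h3) hc.le

/-- a metric space structure with the same uniformity, from a bi-Lipschitz equivalent distance -/
@[reducible] noncomputable def mkMetric (W : Type) [m : MetricSpace W] (ρ : W → W → ℝ)
    (h0 : ∀ x, ρ x x = 0) (hs : ∀ x y, ρ x y = ρ y x) (ht : ∀ x y z, ρ x z ≤ ρ x y + ρ y z)
    (hz : ∀ x y, ρ x y = 0 → x = y) (c C : ℝ) (hc : 0 < c)
    (hC : 0 < C) (h1 : ∀ x y, c * dist x y ≤ ρ x y) (h2 : ∀ x y, ρ x y ≤ C * dist x y) :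
    MetricSpace W :=
  (rawMetric W ρ h0 hs ht hz).replaceUniformity (raw_unif W ρ h0 hs ht hz c C hc hC h1 h2)

/-- a type with two points -/
def TwoPt : Type := Bool

instance : DecidableEq TwoPt := inferInstanceAs (DecidableEq Bool)
instance : Finite TwoPt := inferInstanceAs (Finite Bool)
instance : Nonempty TwoPt := inferInstanceAs (Nonempty Bool)

/-- the discrete metric on two points -/
noncomputable def twoDist (i j : TwoPt) : ℝ := if i = j then 0 else 1

lemma twoDist_self (i : TwoPt) : twoDist i i = 0 := by simp [twoDist]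
lemma twoDist_comm (i j : TwoPt) : twoDist i j = twoDist j i := by simp [twoDist, eq_comm]
lemma twoDist_tri (i j k : TwoPt) : twoDist i k ≤ twoDist i j + twoDist j k := by
  unfold twoDist
  by_cases h1 : i = j
  · subst h1
    simp
  · rw [if_neg h1]
    split_ifs <;> norm_num
lemma twoDist_nonneg (i j : TwoPt) : 0 ≤ twoDist i j := by
  unfold twoDist
  split_ifs <;> norm_num
lemma twoDist_le (i j : TwoPt) : twoDist i j ≤ 1 := by
  unfold twoDist
  split_ifs <;> norm_num

noncomputable instance : MetricSpace TwoPt where
  dist := twoDist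
  dist_self := twoDist_self
  dist_comm := twoDist_comm
  dist_triangle := twoDist_tri
  eq_of_dist_eq_zero := by
    intro i j h
    have h' : twoDist i j = 0 := h
    by_contra hne
    simp [twoDist, hne] at h'

lemma two_dist (i j : TwoPt) : dist i j = if i = j then 0 else 1 := rfl

noncomputable instance : MeasurableSpace TwoPt := borel TwoPt

/-- the two points -/
def tt : TwoPt := (true : Bool)
def ff : TwoPt := (false : Bool)

lemma tt_ne_ff : tt ≠ ff := by unfold tt ff; exact Bool.noConfusion

instance : BorelSpace TwoPt := ⟨rfl⟩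

section
variable (X : MM) (l k : ℝ)

/-- the space `l X`, `l > 0` -/
noncomputable def scale (hl : 0 < l) : MM :=
  letI : MetricSpace X.X := mkMetric X.X (fun x y => l * dist x y) (fun x => by simp)
    (fun x y => by rw [dist_comm]) (fun x y z => by nlinarith [dist_triangle x y z])
    (fun x y h => by
      rcases mul_eq_zero.1 h with h | h
      · exact absurd h hl.ne'
      · exact dist_eq_zero.1 h) l l hl hl (fun x y => le_rfl) (fun x y => le_rfl)
  { X := X.X
    metric := inferInstance
    complete := X.complete
    separable := X.separable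
    meas := X.meas
    borel := X.borel
    μ := X.μ }

lemma scale_dist (hl : 0 < l) (x y : X.X) :
    (dist (α := (scale X l hl).X) x y : ℝ) = l * dist (α := X.X) x y := rfl

/-- uniform probability measure on two points -/
noncomputable def boolMeas : Measure TwoPt :=
  (2⁻¹ : ENNReal) • Measure.dirac tt + (2⁻¹ : ENNReal) • Measure.dirac ff

instance : IsProbabilityMeasure boolMeas := ⟨by
  simp [boolMeas, ENNReal.inv_two_add_inv_two]⟩

/-- the two-point space -/
noncomputable def two : MM where
  X := TwoPt
  μ := boolMeas

/-- the one-point space -/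
noncomputable def point : MM where
  X := PUnit
  μ := Measure.dirac PUnit.unit

/-- the metric on the product -/
@[reducible] noncomputable def prodMetric (hl : 0 < l) (hk : 0 < k) : MetricSpace (X.X × TwoPt) :=
  mkMetric (X.X × TwoPt)
    (fun x y => l * dist x.1 y.1 + k * dist x.2 y.2) (fun x => by simp)
    (fun x y => by rw [dist_comm, dist_comm x.2])
    (fun x y z => by nlinarith [dist_triangle x.1 y.1 z.1, dist_triangle x.2 y.2 z.2])
    (fun x y h => by
      have h1 := mul_nonneg hl.le (dist_nonneg (x := x.1) (y := y.1))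
      have h2 := mul_nonneg hk.le (dist_nonneg (x := x.2) (y := y.2))
      have h3 : l * dist x.1 y.1 = 0 := by linarith
      have h4 : k * dist x.2 y.2 = 0 := by linarith
      refine Prod.ext ?_ ?_
      · rcases mul_eq_zero.1 h3 with h | h
        · exact absurd h hl.ne'
        · exact dist_eq_zero.1 h
      · rcases mul_eq_zero.1 h4 with h | h
        · exact absurd h hk.ne'
        · exact dist_eq_zero.1 h)
    (min l k) (l + k) (lt_min hl hk) (by linarith)
    (fun x y => by
      have h1 := mul_nonneg hl.le (dist_nonneg (x := x.1) (y := y.1))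
      have h2 := mul_nonneg hk.le (dist_nonneg (x := x.2) (y := y.2))
      rw [Prod.dist_eq]
      rcases le_total (dist x.1 y.1) (dist x.2 y.2) with h | h
      · rw [max_eq_right h]
        have := mul_le_mul_of_nonneg_right (min_le_right l k) (dist_nonneg (x := x.2) (y := y.2))
        linarith
      · rw [max_eq_left h]
        have := mul_le_mul_of_nonneg_right (min_le_left l k) (dist_nonneg (x := x.1) (y := y.1))
        linarith)
    (fun x y => by
      rw [Prod.dist_eq, add_mul]
      exact add_le_add (mul_le_mul_of_nonneg_left (le_max_left _ _) hl.le)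
        (mul_le_mul_of_nonneg_left (le_max_right _ _) hk.le))

/-- the product `l X × k Y` with the sum of the distances, `Y` the two-point space -/
noncomputable def prodMM (hl : 0 < l) (hk : 0 < k) : MM :=
  @MM.mk (X.X × TwoPt) (prodMetric X l k hl hk)
    (by
      show @CompleteSpace (X.X × TwoPt) instUniformSpaceProd
      infer_instance)
    (by
      show @SecondCountableTopology (X.X × TwoPt) instTopologicalSpaceProd
      infer_instance)
    Prod.instMeasurableSpace
    (by
      show @BorelSpace (X.X × TwoPt) instTopologicalSpaceProd Prod.instMeasurableSpace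
      infer_instance)
    (X.μ.prod boolMeas) inferInstance

open Classical in
/-- the space `l X × k Y`, also if `l` or `k` is zero (identifying points at distance zero) -/
noncomputable def P : MM :=
  if hl : 0 < l then (if hk : 0 < k then prodMM X l k hl hk else scale X l hl)
  else (if hk : 0 < k then scale two k hk else point)

/-- the map from the product -/
lemma hasT (hl : 0 ≤ l) (hk : 0 ≤ k) : ∃ T : X.X × TwoPt → (P X l k).X, Measurable T ∧
    (X.μ.prod boolMeas).map T = (P X l k).μ ∧ Function.Surjective T ∧
    ∀ w w', dist (T w) (T w') = l * dist w.1 w'.1 + k * dist w.2 w'.2 := by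
  by_cases h1 : 0 < l
  · by_cases h2 : 0 < k
    · have hP : P X l k = prodMM X l k h1 h2 := by rw [P, dif_pos h1, dif_pos h2]
      rw [hP]
      exact ⟨id, measurable_id, Measure.map_id, Function.surjective_id, fun w w' => rfl⟩
    · have hP : P X l k = scale X l h1 := by rw [P, dif_pos h1, dif_neg h2]
      have hk0 : k = 0 := le_antisymm (not_lt.1 h2) hk
      rw [hP]
      refine ⟨fun w => w.1, measurable_fst, ?_, fun x => ⟨(x, Classical.arbitrary _), rfl⟩,
        fun w w' => ?_⟩
      · show (X.μ.prod boolMeas).map Prod.fst = X.μ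
        rw [← Measure.fst, Measure.fst_prod]
      · rw [hk0, zero_mul, add_zero]
        rfl
  · have hl0 : l = 0 := le_antisymm (not_lt.1 h1) hl
    have : Nonempty X.X := nonempty_of_isProbabilityMeasure X.μ
    by_cases h2 : 0 < k
    · have hP : P X l k = scale two k h2 := by rw [P, dif_neg h1, dif_pos h2]
      rw [hP]
      refine ⟨fun w => w.2, measurable_snd, ?_, fun x => ⟨(Classical.arbitrary _, x), rfl⟩,
        fun w w' => ?_⟩
      · show (X.μ.prod boolMeas).map Prod.snd = boolMeas
        rw [← Measure.snd, Measure.snd_prod]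
      · rw [hl0, zero_mul, zero_add]
        rfl
    · have hP : P X l k = point := by rw [P, dif_neg h1, dif_neg h2]
      have hk0 : k = 0 := le_antisymm (not_lt.1 h2) hk
      rw [hP]
      refine ⟨fun w => PUnit.unit, measurable_const, ?_, fun x => ⟨Classical.arbitrary _, rfl⟩,
        fun w w' => ?_⟩
      · show (X.μ.prod boolMeas).map (fun _ => PUnit.unit) = Measure.dirac PUnit.unit
        rw [Measure.map_const]
        simp
      · rw [hl0, hk0, zero_mul, zero_mul, add_zero]
        exact dist_self _

end

end Pool.Agent.V1215.MMS
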