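import Pool.Agent.V1215.MMS.M2

/-! # The functional `G` -/

set_option autoImplicit false

open MeasureTheory ProbabilityTheory Set unitInterval Topology

namespace Pool.Agent.V1215.MMS

/-- the kernel function -/
noncomputable def kk (a r : ℝ) : ℝ := r / (a + r)

lemma kk_nonneg {a r : ℝ} (ha : 0 < a) (hr : 0 ≤ r) : 0 ≤ kk a r := div_nonneg hr (by linarith)

lemma kk_le_one {a r : ℝ} (ha : 0 < a) (hr : 0 ≤ r) : kk a r ≤ 1 := by
  unfold kk
  rw [div_le_one (by linarith)]
  linarith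

lemma kk_lip {a r r' : ℝ} (ha : 0 < a) (hr : 0 ≤ r) (hr' : 0 ≤ r') {d : ℝ} (h : r ≤ r' + d)
    (hd : 0 ≤ d) : kk a r ≤ kk a r' + d / a := by
  unfold kk
  have e1 : r / (a + r) - r' / (a + r') = a * (r - r') / ((a + r) * (a + r')) := by
    field_simp
    ring
  have e2 : a * (r - r') / ((a + r) * (a + r')) ≤ d / a := by
    rcases le_total r r' with h1 | h1
    · refine le_trans ?_ (div_nonneg hd ha.le)
      refine div_nonpos_of_nonpos_of_nonneg ?_ (by positivity)
      nlinarith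
    · rw [div_le_div_iff₀ (by positivity) ha]
      have h2 : r - r' ≤ d := by linarith
      have h3 : a * a ≤ (a + r) * (a + r') := by nlinarith
      nlinarith [mul_le_mul h2 h3 (by positivity) hd]
  linarith

lemma kk_anti {a b r : ℝ} (ha : 0 < a) (hab : a ≤ b) (hr : 0 ≤ r) : kk b r ≤ kk a r := by
  unfold kk
  rw [div_le_div_iff₀ (by linarith) (by linarith)]
  nlinarith

lemma kk_close {a b r : ℝ} (ha : 0 < a) (hab : a ≤ b) (hr : 0 ≤ r) :
    kk a r ≤ kk b r + (b - a) / a := by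
  unfold kk
  have hb : 0 < b := ha.trans_le hab
  have n1 : a + r ≠ 0 := by positivity
  have n2 : b + r ≠ 0 := by positivity
  have e1 : r / (a + r) - r / (b + r) = (b - a) * r / ((a + r) * (b + r)) := by
    field_simp
    ring
  have e2 : (b - a) * r / ((a + r) * (b + r)) ≤ (b - a) / a := by
    rw [div_le_div_iff₀ (by positivity) ha]
    have : r * a ≤ (a + r) * (b + r) := by nlinarith
    nlinarith
  linarith

lemma kk_strict {a b r R : ℝ} (ha : 0 < a) (hab : a ≤ b) (hr : 0 ≤ r) (hR : r ≤ R) :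
    kk b r + (b - a) / (a + R) * kk b r ≤ kk a r := by
  unfold kk
  have hb : 0 < b := ha.trans_le hab
  have n1 : a + r ≠ 0 := by positivity
  have n2 : b + r ≠ 0 := by positivity
  have n3 : a + R ≠ 0 := by
    have : 0 < a + R := by linarith
    exact this.ne'
  have e1 : r / (b + r) + (b - a) / (a + R) * (r / (b + r)) =
      r / (b + r) * ((b + R) / (a + R)) := by
    field_simp
    ring
  have e2 : (b + R) / (a + R) ≤ (b + r) / (a + r) := by
    rw [div_le_div_iff₀ (by linarith) (by linarith)]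
    nlinarith
  have e3 : r / (a + r) = r / (b + r) * ((b + r) / (a + r)) := by
    field_simp
  rw [e1, e3]
  exact mul_le_mul_of_nonneg_left e2 (by positivity)

lemma kk_scale {a r s : ℝ} (hs : 0 < s) : kk (s * a) (s * r) = kk a r := by
  unfold kk
  rw [← mul_add, mul_div_mul_left _ _ hs.ne']

/-- the mean of `kk a |f - f'|` -/
noncomputable def NN (Z : MM) (f : Z.X → ℝ) (a : ℝ) : ℝ :=
  ∫ w, kk a |f w.1 - f w.2| ∂(Z.μ.prod Z.μ)

/-- the supremum over all 1-Lipschitz functions -/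
noncomputable def GG (Z : MM) (a : ℝ) : ℝ := ⨆ f : {f : Z.X → ℝ // LipschitzWith 1 f}, NN Z f.1 a

lemma kk_meas {W : Type} [MeasurableSpace W] {a : ℝ} {r : W → ℝ} (hr : Measurable r) :
    Measurable fun w => kk a (r w) := by
  unfold kk
  exact hr.div (measurable_const.add hr)

lemma kk_int {W : Type} [MeasurableSpace W] (P : Measure W) [IsProbabilityMeasure P] {a : ℝ}
    (ha : 0 < a) {r : W → ℝ} (hr : Measurable r) :
    Integrable (fun w => kk a |r w|) P := by
  refine Integrable.of_bound (C := 1) (kk_meas hr.abs).aestronglyMeasurable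
    (Filter.Eventually.of_forall fun w => ?_)
  rw [Real.norm_eq_abs, abs_of_nonneg (kk_nonneg ha (abs_nonneg _))]
  exact kk_le_one ha (abs_nonneg _)

section
variable {Z : MM} {f : Z.X → ℝ} {a b : ℝ}

lemma f_meas (hf : LipschitzWith 1 f) : Measurable fun w : Z.X × Z.X => f w.1 - f w.2 :=
  (hf.continuous.measurable.comp measurable_fst).sub (hf.continuous.measurable.comp measurable_snd)

lemma NN_nonneg (ha : 0 < a) : 0 ≤ NN Z f a :=
  integral_nonneg fun _ => kk_nonneg ha (abs_nonneg _)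

lemma NN_le_one (hf : LipschitzWith 1 f) (ha : 0 < a) : NN Z f a ≤ 1 := by
  have h1 : NN Z f a ≤ ∫ _, (1 : ℝ) ∂(Z.μ.prod Z.μ) :=
    integral_mono (kk_int _ ha (f_meas hf)) (integrable_const _)
      fun w => kk_le_one ha (abs_nonneg _)
  simpa using h1

lemma NN_bdd (ha : 0 < a) :
    BddAbove (Set.range fun f : {f : Z.X → ℝ // LipschitzWith 1 f} => NN Z f.1 a) :=
  ⟨1, by rintro _ ⟨f, rfl⟩; exact NN_le_one f.2 ha⟩

lemma NN_le_GG (hf : LipschitzWith 1 f) (ha : 0 < a) : NN Z f a ≤ GG Z a :=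
  le_ciSup (NN_bdd ha) (⟨f, hf⟩ : {f : Z.X → ℝ // LipschitzWith 1 f})

instance : Nonempty {f : Z.X → ℝ // LipschitzWith 1 f} := ⟨⟨fun _ => 0, LipschitzWith.const' 0⟩⟩

lemma GG_le {c : ℝ} (h : ∀ f : Z.X → ℝ, LipschitzWith 1 f → NN Z f a ≤ c) : GG Z a ≤ c :=
  ciSup_le fun f => h f.1 f.2

lemma GG_nonneg (ha : 0 < a) : 0 ≤ GG Z a :=
  (NN_nonneg ha).trans (NN_le_GG (f := fun _ => 0) (LipschitzWith.const' 0) ha)

lemma GG_anti (ha : 0 < a) (hab : a ≤ b) : GG Z b ≤ GG Z a := by
  refine GG_le fun f hf => le_trans ?_ (NN_le_GG hf ha)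
  exact integral_mono (kk_int _ (ha.trans_le hab) (f_meas hf)) (kk_int _ ha (f_meas hf))
    fun w => kk_anti ha hab (abs_nonneg _)

lemma GG_close (ha : 0 < a) (hab : a ≤ b) : GG Z a ≤ GG Z b + (b - a) / a := by
  refine GG_le fun f hf => ?_
  have h1 : NN Z f a ≤ NN Z f b + (b - a) / a := by
    have h2 : NN Z f a ≤ ∫ w, (kk b |f w.1 - f w.2| + (b - a) / a) ∂(Z.μ.prod Z.μ) :=
      integral_mono (kk_int _ ha (f_meas hf))
        ((kk_int _ (ha.trans_le hab) (f_meas hf)).add (integrable_const _))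
        fun w => kk_close ha hab (abs_nonneg _)
    rw [integral_add (kk_int _ (ha.trans_le hab) (f_meas hf)) (integrable_const _)] at h2
    have h3 : ∫ _, (b - a) / a ∂(Z.μ.prod Z.μ) = (b - a) / a := by simp
    rw [h3] at h2
    exact h2
  exact h1.trans (by linarith [NN_le_GG hf (ha.trans_le hab)])

lemma dist_set_meas (Z : MM) (R : ℝ) : MeasurableSet {w : Z.X × Z.X | R < dist w.1 w.2} :=
  measurableSet_lt measurable_const measurable_dist

lemma tail (Z : MM) {η : ℝ} (hη : 0 < η) :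
    ∃ R : ℝ, 0 < R ∧ (Z.μ.prod Z.μ).real {w | R < dist w.1 w.2} < η := by
  have h1 : Filter.Tendsto (fun n : ℕ => (Z.μ.prod Z.μ) {w : Z.X × Z.X | ((n : ℝ) + 1) < dist w.1 w.2})
      Filter.atTop (𝓝 ((Z.μ.prod Z.μ) (⋂ n : ℕ, {w : Z.X × Z.X | ((n : ℝ) + 1) < dist w.1 w.2}))) := by
    refine tendsto_measure_iInter_atTop (fun n => (dist_set_meas Z _).nullMeasurableSet) ?_
      ⟨0, measure_ne_top _ _⟩
    intro m n hmn w hw
    have h2 : ((n : ℝ) + 1) < dist w.1 w.2 := hw
    have h3 : (m : ℝ) ≤ n := by exact_mod_cast hmn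
    show (m : ℝ) + 1 < dist w.1 w.2
    linarith
  have h2 : (⋂ n : ℕ, {w : Z.X × Z.X | ((n : ℝ) + 1) < dist w.1 w.2}) = ∅ := by
    ext w
    simp only [mem_iInter, mem_empty_iff_false, iff_false, not_forall]
    obtain ⟨n, hn⟩ := exists_nat_gt (dist w.1 w.2)
    refine ⟨n, ?_⟩
    show ¬ ((n : ℝ) + 1 < dist w.1 w.2)
    linarith
  rw [h2, measure_empty] at h1
  have h3 := (ENNReal.tendsto_toReal (by simp : (0 : ENNReal) ≠ ⊤)).comp h1
  rw [ENNReal.toReal_zero] at h3
  obtain ⟨n, hn⟩ := (h3.eventually (gt_mem_nhds hη)).exists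
  exact ⟨(n : ℝ) + 1, by positivity, hn⟩

lemma ind_int (Z : MM) (R : ℝ) :
    Integrable ({w : Z.X × Z.X | R < dist w.1 w.2}.indicator fun _ => (1 : ℝ)) (Z.μ.prod Z.μ) :=
  (integrable_const _).indicator (dist_set_meas Z R)

lemma ind_eq (Z : MM) (R : ℝ) :
    ∫ w, ({w : Z.X × Z.X | R < dist w.1 w.2}.indicator fun _ => (1 : ℝ)) w ∂(Z.μ.prod Z.μ) =
      (Z.μ.prod Z.μ).real {w | R < dist w.1 w.2} := by
  rw [integral_indicator (dist_set_meas Z R)]
  simp

lemma f_le (hf : LipschitzWith 1 f) (w : Z.X × Z.X) : |f w.1 - f w.2| ≤ dist w.1 w.2 := by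
  have := hf.dist_le_mul w.1 w.2
  rw [Real.dist_eq] at this
  simpa using this

lemma NN_strict (hf : LipschitzWith 1 f) (ha : 0 < a) (hab : a ≤ b) {R : ℝ} (hR : 0 < R) :
    NN Z f b + (b - a) / (a + R) * (NN Z f b - (Z.μ.prod Z.μ).real {w | R < dist w.1 w.2}) ≤
      NN Z f a := by
  set c := (b - a) / (a + R) with hc
  have hc0 : 0 ≤ c := div_nonneg (by linarith) (by linarith)
  have hb : 0 < b := ha.trans_le hab
  have i1 := kk_int (Z.μ.prod Z.μ) hb (f_meas hf)
  have h1 : ∫ w, (kk b |f w.1 - f w.2| + c * (kk b |f w.1 - f w.2| -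
      ({w : Z.X × Z.X | R < dist w.1 w.2}.indicator fun _ => (1 : ℝ)) w)) ∂(Z.μ.prod Z.μ) ≤
      NN Z f a := by
    refine integral_mono (i1.add ((i1.sub (ind_int Z R)).const_mul c))
      (kk_int _ ha (f_meas hf)) fun w => ?_
    simp only
    by_cases hw : R < dist w.1 w.2
    · rw [indicator_of_mem (show w ∈ {w : Z.X × Z.X | R < dist w.1 w.2} from hw)]
      have h2 := kk_le_one hb (abs_nonneg (f w.1 - f w.2))
      have h3 := kk_anti ha hab (abs_nonneg (f w.1 - f w.2))
      nlinarith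
    · rw [indicator_of_notMem (show w ∉ {w : Z.X × Z.X | R < dist w.1 w.2} from hw), sub_zero]
      exact kk_strict ha hab (abs_nonneg _) ((f_le hf w).trans (not_lt.1 hw))
  have e1 : ∫ w, (kk b |f w.1 - f w.2| + c * (kk b |f w.1 - f w.2| -
      ({w : Z.X × Z.X | R < dist w.1 w.2}.indicator fun _ => (1 : ℝ)) w)) ∂(Z.μ.prod Z.μ) =
      ∫ w, kk b |f w.1 - f w.2| ∂(Z.μ.prod Z.μ) + ∫ w, c * (kk b |f w.1 - f w.2| -
      ({w : Z.X × Z.X | R < dist w.1 w.2}.indicator fun _ => (1 : ℝ)) w) ∂(Z.μ.prod Z.μ) :=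
    integral_add i1 ((i1.sub (ind_int Z R)).const_mul c)
  have e2 : ∫ w, (kk b |f w.1 - f w.2| -
      ({w : Z.X × Z.X | R < dist w.1 w.2}.indicator fun _ => (1 : ℝ)) w) ∂(Z.μ.prod Z.μ) =
      ∫ w, kk b |f w.1 - f w.2| ∂(Z.μ.prod Z.μ) -
      ∫ w, ({w : Z.X × Z.X | R < dist w.1 w.2}.indicator fun _ => (1 : ℝ)) w ∂(Z.μ.prod Z.μ) :=
    integral_sub i1 (ind_int Z R)
  rw [e1, integral_const_mul, e2, ind_eq] at h1
  exact h1

lemma GG_strict (ha : 0 < a) (hab : a < b) (hG : 0 < GG Z b) : GG Z b < GG Z a := by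
  have hb : 0 < b := ha.trans hab
  obtain ⟨R, hR, hT⟩ := tail Z (show 0 < GG Z b / 4 by linarith)
  set c := (b - a) / (a + R) with hc
  have hc0 : 0 < c := div_pos (by linarith) (by linarith)
  have h1 : GG Z b - min (GG Z b / 2) (c * GG Z b / 8) < GG Z b := by
    have : 0 < min (GG Z b / 2) (c * GG Z b / 8) := lt_min (by linarith) (by positivity)
    linarith
  obtain ⟨f, hf⟩ := exists_lt_of_lt_ciSup h1
  have h2 := NN_strict f.2 ha hab.le hR
  have h3 := NN_le_GG f.2 ha
  have h4 := min_le_left (GG Z b / 2) (c * GG Z b / 8)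
  have h5 := min_le_right (GG Z b / 2) (c * GG Z b / 8)
  have h6 : c * (GG Z b / 4) ≤ c * (NN Z f.1 b - (Z.μ.prod Z.μ).real {w | R < dist w.1 w.2}) :=
    mul_le_mul_of_nonneg_left (by linarith) hc0.le
  have h7 : 0 < c * GG Z b := mul_pos hc0 hG
  nlinarith

lemma GG_small {τ : ℝ} (hτ : 0 < τ) : ∃ a : ℝ, 0 < a ∧ GG Z a < τ := by
  obtain ⟨R, hR, hT⟩ := tail Z (show 0 < τ / 2 by linarith)
  have ha : (0 : ℝ) < 4 * R / τ := by positivity
  refine ⟨4 * R / τ, ha, ?_⟩
  have key : ∀ f : Z.X → ℝ, LipschitzWith 1 f → NN Z f (4 * R / τ) ≤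
      τ / 4 + (Z.μ.prod Z.μ).real {w | R < dist w.1 w.2} := by
    intro f hf
    have h1 : NN Z f (4 * R / τ) ≤ ∫ w, (τ / 4 +
        ({w : Z.X × Z.X | R < dist w.1 w.2}.indicator fun _ => (1 : ℝ)) w) ∂(Z.μ.prod Z.μ) := by
      refine integral_mono (kk_int _ ha (f_meas hf)) ((integrable_const _).add (ind_int Z R))
        fun w => ?_
      simp only
      by_cases hw : R < dist w.1 w.2
      · rw [indicator_of_mem (show w ∈ {w : Z.X × Z.X | R < dist w.1 w.2} from hw)]
        have h2 := kk_le_one ha (abs_nonneg (f w.1 - f w.2))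
        linarith
      · rw [indicator_of_notMem (show w ∉ {w : Z.X × Z.X | R < dist w.1 w.2} from hw), add_zero]
        have h3 : |f w.1 - f w.2| ≤ R := (f_le hf w).trans (not_lt.1 hw)
        have h4 := kk_lip ha (abs_nonneg (f w.1 - f w.2)) le_rfl (d := R) (by linarith) hR.le
        have h5 : kk (4 * R / τ) 0 = 0 := by simp [kk]
        have h6 : R / (4 * R / τ) = τ / 4 := by field_simp
        rw [h5, h6, zero_add] at h4
        exact h4
    rw [integral_add (integrable_const _) (ind_int Z R), ind_eq] at h1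
    simpa using h1
  have h7 := GG_le key
  linarith

/-- the functional of a space which is not a point is positive -/
lemma GG_pos (hZ : ¬ ∃ z0, ∀ᵐ z ∂Z.μ, z = z0) (ha : 0 < a) : 0 < GG Z a := by
  by_contra hcon
  have h0 : GG Z a = 0 := le_antisymm (not_lt.1 hcon) (GG_nonneg ha)
  apply hZ
  have hne : Nonempty Z.X := nonempty_of_isProbabilityMeasure Z.μ
  have key : ∀ y : Z.X, ∀ᵐ w ∂(Z.μ.prod Z.μ), dist y w.1 = dist y w.2 := by
    intro y
    have hf : LipschitzWith 1 (fun x : Z.X => dist y x) := LipschitzWith.dist_right y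
    have h1 : NN Z (fun x => dist y x) a = 0 :=
      le_antisymm (by rw [← h0]; exact NN_le_GG hf ha) (NN_nonneg ha)
    have h2 := (integral_eq_zero_iff_of_nonneg (fun w => kk_nonneg ha (abs_nonneg _))
      (kk_int _ ha (f_meas hf))).1 h1
    filter_upwards [h2] with w hw
    have h3 : kk a |dist y w.1 - dist y w.2| = 0 := hw
    unfold kk at h3
    rcases div_eq_zero_iff.1 h3 with h4 | h4
    · exact sub_eq_zero.1 (abs_eq_zero.1 h4)
    · have := abs_nonneg (dist y w.1 - dist y w.2)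
      linarith
  have h1 : ∀ᵐ w ∂(Z.μ.prod Z.μ), ∀ n, dist (TopologicalSpace.denseSeq Z.X n) w.1 =
      dist (TopologicalSpace.denseSeq Z.X n) w.2 := ae_all_iff.2 fun n => key _
  have h2 : ∀ᵐ w ∂(Z.μ.prod Z.μ), w.1 = w.2 := by
    filter_upwards [h1] with w hw
    have h3 : Continuous fun y : Z.X => dist y w.1 := continuous_id.dist continuous_const
    have h4 : Continuous fun y : Z.X => dist y w.2 := continuous_id.dist continuous_const
    have h5 : (fun y : Z.X => dist y w.1) = fun y => dist y w.2 :=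
      h3.ext_on (TopologicalSpace.denseRange_denseSeq Z.X) h4 (by rintro _ ⟨n, rfl⟩; exact hw n)
    have h6 := congrFun h5 w.1
    simp only [dist_self] at h6
    exact dist_eq_zero.1 h6.symm
  have h3 := Measure.ae_ae_of_ae_prod h2
  obtain ⟨z0, hz0⟩ := h3.exists
  exact ⟨z0, hz0.mono fun z hz => hz.symm⟩

lemma GG_scale {s : ℝ} (hs : 0 < s) (X : MM) (ha : 0 < a) :
    GG (scale X s hs) (s * a) = GG X a := by
  refine le_antisymm ?_ ?_
  · refine GG_le fun f hf => ?_
    have hf' : LipschitzWith 1 (fun x : X.X => s⁻¹ * f x) := by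
      refine LipschitzWith.of_dist_le_mul fun x y => ?_
      have h1 : dist (f x) (f y) ≤ 1 * dist (α := (scale X s hs).X) x y := hf.dist_le_mul x y
      rw [scale_dist, one_mul] at h1
      rw [Real.dist_eq, ← mul_sub, abs_mul, abs_of_pos (inv_pos.2 hs), NNReal.coe_one, one_mul]
      rw [Real.dist_eq] at h1
      calc s⁻¹ * |f x - f y| ≤ s⁻¹ * (s * dist (α := X.X) x y) :=
            mul_le_mul_of_nonneg_left h1 (inv_pos.2 hs).le
        _ = dist (α := X.X) x y := by rw [← mul_assoc, inv_mul_cancel₀ hs.ne', one_mul]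
    refine le_trans (le_of_eq ?_) (NN_le_GG hf' ha)
    unfold NN
    refine integral_congr_ae (Filter.Eventually.of_forall fun w => ?_)
    show kk (s * a) |f w.1 - f w.2| = kk a |s⁻¹ * f w.1 - s⁻¹ * f w.2|
    rw [← mul_sub, abs_mul, abs_of_pos (inv_pos.2 hs), ← kk_scale hs (r := s⁻¹ * |f w.1 - f w.2|),
      ← mul_assoc, mul_inv_cancel₀ hs.ne', one_mul]
  · refine GG_le fun f hf => ?_
    have hf' : LipschitzWith 1 (fun x : (scale X s hs).X => s * f x) := by
      refine LipschitzWith.of_dist_le_mul fun x y => ?_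
      have h1 := hf.dist_le_mul x y
      rw [NNReal.coe_one, one_mul] at h1
      have h2 : |s * f x - s * f y| ≤ s * dist (α := X.X) x y := by
        rw [← mul_sub, abs_mul, abs_of_pos hs]
        exact mul_le_mul_of_nonneg_left h1 hs.le
      rw [NNReal.coe_one, one_mul]
      exact h2
    refine le_trans (le_of_eq ?_) (NN_le_GG hf' (mul_pos hs ha))
    unfold NN
    refine integral_congr_ae (Filter.Eventually.of_forall fun w => ?_)
    show kk a |f w.1 - f w.2| = kk (s * a) |s * f w.1 - s * f w.2|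
    rw [← mul_sub, abs_mul, abs_of_pos hs, kk_scale hs]

end

/-- the functional is continuous for the observable distance -/
lemma GG_conc {X Y : MM} {a ε : ℝ} (ha : 0 < a) (hε : 0 ≤ ε) (h : ConcLE ε X Y) :
    GG X a ≤ GG Y a + (2 * ε / a + 2 * ε) := by
  obtain ⟨φ, ψ, hφ, hψ, h1, -⟩ := h
  have pull : ∀ {Z : MM} {χ : I → Z.X} (hχ : IsParam Z χ) {f : Z.X → ℝ} (hf : LipschitzWith 1 f),
      NN Z f a = ∫ w, kk a |f (χ w.1) - f (χ w.2)| ∂((volume : Measure I).prod volume) := by
    intro Z χ hχ f hf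
    have e1 : ((volume : Measure I).prod volume).map (Prod.map χ χ) = Z.μ.prod Z.μ := by
      rw [← Measure.map_prod_map _ _ hχ.1 hχ.1, hχ.2]
    unfold NN
    rw [← e1, integral_map (hχ.1.prodMap hχ.1).aemeasurable]
    · rfl
    · exact (kk_meas (f_meas hf).abs).aestronglyMeasurable
  refine GG_le fun f hf => ?_
  obtain ⟨g, hg, hB⟩ := h1 f hf
  have mB := meas_dev hφ hψ hf hg ε
  set B := {s | ε < |f (φ s) - g (ψ s)|} with hBd
  have mf : Measurable fun w : I × I => f (φ w.1) - f (φ w.2) :=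
    (hf.continuous.measurable.comp (hφ.1.comp measurable_fst)).sub
      (hf.continuous.measurable.comp (hφ.1.comp measurable_snd))
  have mg : Measurable fun w : I × I => g (ψ w.1) - g (ψ w.2) :=
    (hg.continuous.measurable.comp (hψ.1.comp measurable_fst)).sub
      (hg.continuous.measurable.comp (hψ.1.comp measurable_snd))
  have ib : Integrable (B.indicator fun _ => (1 : ℝ)) (volume : Measure I) :=
    (integrable_const _).indicator mB
  have ib1 : Integrable (fun w : I × I => (B.indicator fun _ => (1 : ℝ)) w.1)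
      ((volume : Measure I).prod volume) := ib.comp_fst volume
  have ib2 : Integrable (fun w : I × I => (B.indicator fun _ => (1 : ℝ)) w.2)
      ((volume : Measure I).prod volume) := ib.comp_snd volume
  have ibe : ∫ s, (B.indicator fun _ => (1 : ℝ)) s = volume.real B := by
    rw [integral_indicator mB]
    simp
  have key : NN X f a ≤ ∫ w : I × I, (kk a |g (ψ w.1) - g (ψ w.2)| + (2 * ε / a +
      ((B.indicator fun _ => (1 : ℝ)) w.1 + (B.indicator fun _ => (1 : ℝ)) w.2)))
      ∂((volume : Measure I).prod volume) := by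
    rw [pull hφ hf]
    refine integral_mono (kk_int _ ha mf) ((kk_int _ ha mg).add
      ((integrable_const _).add (ib1.add ib2))) fun w => ?_
    simp only
    have p1 : 0 ≤ (B.indicator fun _ => (1 : ℝ)) w.1 := indicator_nonneg (fun _ _ => zero_le_one) _
    have p2 : 0 ≤ (B.indicator fun _ => (1 : ℝ)) w.2 := indicator_nonneg (fun _ _ => zero_le_one) _
    have p3 := kk_nonneg ha (abs_nonneg (g (ψ w.1) - g (ψ w.2)))
    have p4 : 0 ≤ 2 * ε / a := by positivity
    by_cases c1 : w.1 ∈ B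
    · have e1 : (B.indicator fun _ => (1 : ℝ)) w.1 = 1 := indicator_of_mem c1 _
      have e2 := kk_le_one ha (abs_nonneg (f (φ w.1) - f (φ w.2)))
      linarith
    · by_cases c2 : w.2 ∈ B
      · have e1 : (B.indicator fun _ => (1 : ℝ)) w.2 = 1 := indicator_of_mem c2 _
        have e2 := kk_le_one ha (abs_nonneg (f (φ w.1) - f (φ w.2)))
        linarith
      · have c1' : |f (φ w.1) - g (ψ w.1)| ≤ ε := not_lt.1 c1
        have c2' : |f (φ w.2) - g (ψ w.2)| ≤ ε := not_lt.1 c2
        have e1 : |f (φ w.1) - f (φ w.2)| ≤ |g (ψ w.1) - g (ψ w.2)| + 2 * ε := by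
          rw [abs_le] at c1' c2'
          have := abs_le.1 (le_refl |g (ψ w.1) - g (ψ w.2)|)
          rw [abs_le]
          constructor <;> linarith
        have e2 := kk_lip ha (abs_nonneg _) (abs_nonneg _) e1 (by linarith)
        linarith
  have q1 : ∫ w : I × I, (kk a |g (ψ w.1) - g (ψ w.2)| + (2 * ε / a +
      ((B.indicator fun _ => (1 : ℝ)) w.1 + (B.indicator fun _ => (1 : ℝ)) w.2)))
      ∂((volume : Measure I).prod volume) =
      ∫ w : I × I, kk a |g (ψ w.1) - g (ψ w.2)| ∂((volume : Measure I).prod volume) +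
      ∫ w : I × I, (2 * ε / a +
      ((B.indicator fun _ => (1 : ℝ)) w.1 + (B.indicator fun _ => (1 : ℝ)) w.2))
      ∂((volume : Measure I).prod volume) :=
    integral_add (kk_int _ ha mg) ((integrable_const _).add (ib1.add ib2))
  have q2 : ∫ w : I × I, (2 * ε / a +
      ((B.indicator fun _ => (1 : ℝ)) w.1 + (B.indicator fun _ => (1 : ℝ)) w.2))
      ∂((volume : Measure I).prod volume) = ∫ w : I × I, (2 * ε / a)
      ∂((volume : Measure I).prod volume) + ∫ w : I × I,
      ((B.indicator fun _ => (1 : ℝ)) w.1 + (B.indicator fun _ => (1 : ℝ)) w.2)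
      ∂((volume : Measure I).prod volume) := integral_add (integrable_const _) (ib1.add ib2)
  have q3 : ∫ w : I × I,
      ((B.indicator fun _ => (1 : ℝ)) w.1 + (B.indicator fun _ => (1 : ℝ)) w.2)
      ∂((volume : Measure I).prod volume) = volume.real B + volume.real B := by
    rw [integral_add ib1 ib2, integral_fun_fst, integral_fun_snd, ibe]
    simp
  rw [q1, q2, q3] at key
  have e3 : ∫ w : I × I, kk a |g (ψ w.1) - g (ψ w.2)| ∂((volume : Measure I).prod volume) =
      NN Y g a := (pull hψ hg).symm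
  rw [e3] at key
  simp at key
  have e4 := NN_le_GG (a := a) hg ha
  linarith

end Pool.Agent.V1215.MMS
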