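import Pool.Agent.V1215.MMS.M2

/-! # Continuity of products -/

set_option autoImplicit false

open MeasureTheory ProbabilityTheory Set unitInterval Topology

namespace Pool.Agent.V1215.MMS

lemma one_side {X Y : MM} {ε : ℝ} (hε : 0 ≤ ε) {φ : I → X.X} {ψ : I → Y.X} {J : Set I}
    (hJ : MeasurableSet J) (h4 : 1 - ε ≤ volume.real J)
    (h5 : ∀ s ∈ J, ∀ t ∈ J, |dist (φ s) (φ t) - dist (ψ s) (ψ t)| ≤ ε)
    (f : X.X → ℝ) (hf : LipschitzWith 1 f) : ∃ g : Y.X → ℝ, LipschitzWith 1 g ∧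
      volume.real {s | ε < |f (φ s) - g (ψ s)|} ≤ ε := by
  rcases J.eq_empty_or_nonempty with hJe | ⟨s0, hs0⟩
  · refine ⟨fun _ => 0, LipschitzWith.const' 0, measureReal_le_one.trans ?_⟩
    rw [hJe] at h4
    simp at h4
    linarith
  have hne : Nonempty J := ⟨⟨s0, hs0⟩⟩
  have fl : ∀ x y : X.X, f x ≤ f y + dist x y := by
    intro x y
    have h1 := hf.dist_le_mul x y
    rw [Real.dist_eq, NNReal.coe_one, one_mul] at h1
    linarith [le_abs_self (f x - f y)]
  set g : Y.X → ℝ := fun y => ⨅ s : J, (f (φ s) + dist y (ψ s)) with hg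
  have hb : ∀ y, BddBelow (Set.range fun s : J => f (φ s) + dist y (ψ s)) := by
    intro y
    refine ⟨f (φ s0) - ε - dist y (ψ s0), ?_⟩
    rintro _ ⟨s, rfl⟩
    have e1 := fl (φ s0) (φ s)
    have e2 := (abs_le.1 (h5 s0 hs0 s s.2)).2
    have e3 := dist_triangle_left (ψ s0) (ψ s) y
    simp only
    linarith
  have hgl : ∀ y (s : J), g y ≤ f (φ s) + dist y (ψ s) := fun y s => ciInf_le (hb y) s
  refine ⟨g, LipschitzWith.of_le_add fun y y' => ?_, ?_⟩
  · have h1 : g y - dist y y' ≤ g y' := by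
      refine le_ciInf fun s => ?_
      have h2 := hgl y s
      have h3 := dist_triangle y y' (ψ s)
      linarith
    linarith
  · have hsub : {s | ε < |f (φ s) - g (ψ s)|} ⊆ Jᶜ := by
      intro s hs hsJ
      have h1 := hgl (ψ s) ⟨s, hsJ⟩
      simp only [dist_self, add_zero] at h1
      have h2 : f (φ s) - ε ≤ g (ψ s) := by
        refine le_ciInf fun t => ?_
        have e1 := fl (φ s) (φ t)
        have e2 := (abs_le.1 (h5 s hsJ t t.2)).2
        linarith
      have h3 : |f (φ s) - g (ψ s)| ≤ ε := by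
        rw [abs_le]
        constructor <;> linarith
      exact absurd hs (not_lt.2 h3)
    refine (measureReal_mono hsub).trans ?_
    rw [probReal_compl_eq_one_sub hJ]
    linarith

/-- the observable distance is at most the box distance -/
lemma box_conc {X Y : MM} {ε : ℝ} (hε : 0 ≤ ε) (h : BoxLE ε X Y) : ConcLE ε X Y := by
  obtain ⟨φ, ψ, J, h1, h2, h3, h4, h5⟩ := h
  refine ⟨φ, ψ, h1, h2, fun f hf => one_side hε h3 h4 h5 f hf, fun g hg => ?_⟩
  obtain ⟨f, hf, h⟩ := one_side (φ := ψ) (ψ := φ) hε h3 h4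
    (fun s hs t ht => by rw [abs_sub_comm]; exact h5 s hs t ht) g hg
  refine ⟨f, hf, ?_⟩
  simpa only [abs_sub_comm] using h

lemma exists_theta : ∃ Θ : I → I × I, Measurable Θ ∧
    (volume : Measure I).map Θ = (volume : Measure I).prod volume :=
  Measure.exists_measurable_map_eq _

lemma exists_two : ∃ ψ : I → TwoPt, Measurable ψ ∧ (volume : Measure I).map ψ = boolMeas :=
  exists_param two

section
variable {X : MM} {φ : I → X.X} {Θ : I → I × I} {ψ : I → TwoPt} {l k : ℝ}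
  {T : X.X × TwoPt → (P X l k).X}

lemma param_T (hφ : IsParam X φ) (hΘ : Measurable Θ)
    (hΘ2 : (volume : Measure I).map Θ = (volume : Measure I).prod volume)
    (hψ : Measurable ψ) (hψ2 : (volume : Measure I).map ψ = boolMeas) (hT : Measurable T)
    (hT2 : (X.μ.prod boolMeas).map T = (P X l k).μ) :
    IsParam (P X l k) (fun s => T (φ (Θ s).1, ψ (Θ s).2)) := by
  have m1 : Measurable (Prod.map φ ψ) := hφ.1.prodMap hψ
  refine ⟨hT.comp (m1.comp hΘ), ?_⟩
  have e1 : (fun s => T (φ (Θ s).1, ψ (Θ s).2)) = T ∘ (Prod.map φ ψ ∘ Θ) := rfl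
  rw [e1, ← Measure.map_map hT (m1.comp hΘ), ← Measure.map_map m1 hΘ, hΘ2,
    ← Measure.map_prod_map _ _ hφ.1 hψ, hφ.2, hψ2, hT2]

end

lemma theta_real {Θ : I → I × I} (hΘ : Measurable Θ)
    (hΘ2 : (volume : Measure I).map Θ = (volume : Measure I).prod volume) {B : Set I}
    (hB : MeasurableSet B) : volume.real ((fun s => (Θ s).1) ⁻¹' B) = volume.real B := by
  refine real_preimage hΘ.fst ?_ hB
  have e1 : (volume : Measure I).map (fun s => (Θ s).1) = ((volume : Measure I).map Θ).map Prod.fst := by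
    rw [Measure.map_map measurable_fst hΘ]
    rfl
  rw [e1, hΘ2, ← Measure.fst, Measure.fst_prod]

lemma prod_box {X X' : MM} {ε l k : ℝ} (hε : 0 ≤ ε) (hl : 0 ≤ l) (hk : 0 ≤ k)
    (h : BoxLE ε X X') : BoxLE ((2 + l) * ε) (P X l k) (P X' l k) := by
  obtain ⟨φ, φ', J, h1, h2, h3, h4, h5⟩ := h
  obtain ⟨Θ, t1, t2⟩ := exists_theta
  obtain ⟨ψ, p1, p2⟩ := exists_two
  obtain ⟨T, a1, a2, -, a4⟩ := hasT X l k hl hk
  obtain ⟨T', b1, b2, -, b4⟩ := hasT X' l k hl hk
  refine ⟨_, _, (fun s => (Θ s).1) ⁻¹' J, param_T h1 t1 t2 p1 p2 a1 a2,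
    param_T h2 t1 t2 p1 p2 b1 b2, t1.fst h3, ?_, fun s hs t ht => ?_⟩
  · rw [theta_real t1 t2 h3]
    nlinarith
  · rw [a4, b4]
    have h6 := h5 _ hs _ ht
    have e1 : l * dist (φ (Θ s).1) (φ (Θ t).1) + k * dist (ψ (Θ s).2) (ψ (Θ t).2) -
        (l * dist (φ' (Θ s).1) (φ' (Θ t).1) + k * dist (ψ (Θ s).2) (ψ (Θ t).2)) =
        l * (dist (φ (Θ s).1) (φ (Θ t).1) - dist (φ' (Θ s).1) (φ' (Θ t).1)) := by ring
    simp only
    rw [e1, abs_mul, abs_of_nonneg hl]
    have := mul_le_mul_of_nonneg_left h6 hl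
    nlinarith

lemma tail1 (Z : MM) (z : Z.X) {η : ℝ} (hη : 0 < η) :
    ∃ R : ℝ, 0 < R ∧ Z.μ.real {w | R < dist w z} < η := by
  have hm : ∀ R : ℝ, MeasurableSet {w : Z.X | R < dist w z} := fun R =>
    measurableSet_lt measurable_const (measurable_id.dist measurable_const)
  have h1 : Filter.Tendsto (fun n : ℕ => Z.μ {w : Z.X | ((n : ℝ) + 1) < dist w z})
      Filter.atTop (𝓝 (Z.μ (⋂ n : ℕ, {w : Z.X | ((n : ℝ) + 1) < dist w z}))) := by
    refine tendsto_measure_iInter_atTop (fun n => (hm _).nullMeasurableSet) ?_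
      ⟨0, measure_ne_top _ _⟩
    intro m n hmn w hw
    have h2 : ((n : ℝ) + 1) < dist w z := hw
    have h3 : (m : ℝ) ≤ n := by exact_mod_cast hmn
    show (m : ℝ) + 1 < dist w z
    linarith
  have h2 : (⋂ n : ℕ, {w : Z.X | ((n : ℝ) + 1) < dist w z}) = ∅ := by
    ext w
    simp only [mem_iInter, mem_empty_iff_false, iff_false, not_forall]
    obtain ⟨n, hn⟩ := exists_nat_gt (dist w z)
    refine ⟨n, ?_⟩
    show ¬ ((n : ℝ) + 1 < dist w z)
    linarith
  rw [h2, measure_empty] at h1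
  have h3 := (ENNReal.tendsto_toReal (by simp : (0 : ENNReal) ≠ ⊤)).comp h1
  rw [ENNReal.toReal_zero] at h3
  obtain ⟨n, hn⟩ := (h3.eventually (gt_mem_nhds hη)).exists
  exact ⟨(n : ℝ) + 1, by positivity, hn⟩

lemma par_box (X : MM) {l0 k0 ε : ℝ} (hl0 : 0 ≤ l0) (hk0 : 0 ≤ k0) (hε : 0 < ε) :
    ∃ δ > 0, ∀ l k : ℝ, 0 ≤ l → 0 ≤ k → |l - l0| < δ → |k - k0| < δ →
      BoxLE ε (P X l k) (P X l0 k0) := by
  obtain ⟨φ, h1⟩ := exists_param X
  obtain ⟨Θ, t1, t2⟩ := exists_theta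
  obtain ⟨ψ, p1, p2⟩ := exists_two
  have hne : Nonempty X.X := nonempty_of_isProbabilityMeasure X.μ
  obtain ⟨x0⟩ := hne
  obtain ⟨R, hR, hT⟩ := tail1 X x0 hε
  have hS : MeasurableSet {w : X.X | R < dist w x0} :=
    measurableSet_lt measurable_const (measurable_id.dist measurable_const)
  set J : Set I := (φ ⁻¹' {w | R < dist w x0})ᶜ with hJ
  have mJ : MeasurableSet J := (h1.1 hS).compl
  have vJ : 1 - ε ≤ volume.real J := by
    rw [hJ, probReal_compl_eq_one_sub (h1.1 hS)]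
    have e1 : volume.real (φ ⁻¹' {w | R < dist w x0}) = X.μ.real {w | R < dist w x0} := by
      rw [Measure.real, Measure.real, ← h1.2, Measure.map_apply h1.1 hS]
    rw [e1]
    linarith
  refine ⟨ε / (2 * R + 1), by positivity, fun l k hl hk el ek => ?_⟩
  obtain ⟨T, a1, a2, -, a4⟩ := hasT X l k hl hk
  obtain ⟨T', b1, b2, -, b4⟩ := hasT X l0 k0 hl0 hk0
  refine ⟨_, _, (fun s => (Θ s).1) ⁻¹' J, param_T h1 t1 t2 p1 p2 a1 a2,
    param_T h1 t1 t2 p1 p2 b1 b2, t1.fst mJ, ?_, fun s hs t ht => ?_⟩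
  · rw [theta_real t1 t2 mJ]
    exact vJ
  · rw [a4, b4]
    simp only
    have c1 : dist (φ (Θ s).1) x0 ≤ R := not_lt.1 hs
    have c2 : dist (φ (Θ t).1) x0 ≤ R := not_lt.1 ht
    have c3 : dist (φ (Θ s).1) (φ (Θ t).1) ≤ 2 * R := by
      have := dist_triangle_right (φ (Θ s).1) (φ (Θ t).1) x0
      linarith
    have c4 : dist (ψ (Θ s).2) (ψ (Θ t).2) ≤ 1 := twoDist_le _ _
    have c5 : (0 : ℝ) ≤ dist (ψ (Θ s).2) (ψ (Θ t).2) := dist_nonneg
    have c6 : (0 : ℝ) ≤ dist (φ (Θ s).1) (φ (Θ t).1) := dist_nonneg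
    have e1 : l * dist (φ (Θ s).1) (φ (Θ t).1) + k * dist (ψ (Θ s).2) (ψ (Θ t).2) -
        (l0 * dist (φ (Θ s).1) (φ (Θ t).1) + k0 * dist (ψ (Θ s).2) (ψ (Θ t).2)) =
        (l - l0) * dist (φ (Θ s).1) (φ (Θ t).1) + (k - k0) * dist (ψ (Θ s).2) (ψ (Θ t).2) := by
      ring
    rw [e1]
    refine (abs_add_le _ _).trans ?_
    rw [abs_mul, abs_mul, abs_of_nonneg c5, abs_of_nonneg c6]
    have e2 := mul_le_mul el.le c3 c6 (by positivity : 0 ≤ ε / (2 * R + 1))
    have e3 := mul_le_mul ek.le c4 c5 (by positivity : 0 ≤ ε / (2 * R + 1))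
    have e4 : ε / (2 * R + 1) * (2 * R) + ε / (2 * R + 1) * 1 = ε := by
      field_simp
    linarith

/-- approximation of `l`-Lipschitz functions -/
lemma lip_l {X X' : MM} {ε : ℝ} {φ : I → X.X} {φ' : I → X'.X}
    (H : ∀ f : X.X → ℝ, LipschitzWith 1 f → ∃ g : X'.X → ℝ, LipschitzWith 1 g ∧
      volume.real {s | ε < |f (φ s) - g (φ' s)|} ≤ ε) (hε : 0 ≤ ε) (l : NNReal) (u : X.X → ℝ)
    (hu : LipschitzWith l u) : ∃ v : X'.X → ℝ, LipschitzWith l v ∧
      volume.real {s | l * ε < |u (φ s) - v (φ' s)|} ≤ ε := by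
  rcases eq_or_lt_of_le (zero_le (a := l)) with h0 | h0
  · have hne : Nonempty X.X := nonempty_of_isProbabilityMeasure X.μ
    obtain ⟨x0⟩ := hne
    refine ⟨fun _ => u x0, LipschitzWith.const' _, ?_⟩
    have e1 : ∀ x, u x = u x0 := by
      intro x
      have := hu.dist_le_mul x x0
      rw [← h0, NNReal.coe_zero, zero_mul] at this
      exact dist_le_zero.1 this
    simp only [e1, ← h0, sub_self, abs_zero, NNReal.coe_zero, zero_mul, lt_self_iff_false,
      Set.ofPred_false, measureReal_empty]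
    exact hε
  · have hl : (0 : ℝ) < l := h0
    have h1 : LipschitzWith 1 (fun x => (l : ℝ)⁻¹ * u x) := by
      refine LipschitzWith.of_dist_le_mul fun x y => ?_
      have h2 := hu.dist_le_mul x y
      rw [Real.dist_eq] at h2 ⊢
      rw [← mul_sub, abs_mul, abs_of_pos (inv_pos.2 hl), NNReal.coe_one, one_mul]
      calc (l : ℝ)⁻¹ * |u x - u y| ≤ (l : ℝ)⁻¹ * (l * dist x y) :=
            mul_le_mul_of_nonneg_left h2 (inv_pos.2 hl).le
        _ = dist x y := by rw [← mul_assoc, inv_mul_cancel₀ hl.ne', one_mul]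
    obtain ⟨g, hg, h2⟩ := H _ h1
    refine ⟨fun x => l * g x, ?_, ?_⟩
    · refine LipschitzWith.of_dist_le_mul fun x y => ?_
      have h3 := hg.dist_le_mul x y
      rw [Real.dist_eq, NNReal.coe_one, one_mul] at h3
      rw [Real.dist_eq, ← mul_sub, abs_mul, abs_of_pos hl]
      exact mul_le_mul_of_nonneg_left h3 hl.le
    · refine le_trans (measureReal_mono ?_) h2
      intro s hs
      have hs' : l * ε < |u (φ s) - l * g (φ' s)| := hs
      have e1 : u (φ s) - l * g (φ' s) = l * ((l : ℝ)⁻¹ * u (φ s) - g (φ' s)) := by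
        field_simp
      rw [e1, abs_mul, abs_of_pos hl] at hs'
      exact lt_of_mul_lt_mul_left hs' hl.le

lemma two_cases (i : TwoPt) : i = tt ∨ i = ff := by
  revert i
  show ∀ i : Bool, i = true ∨ i = false
  decide

lemma two_dist_ne {i j : TwoPt} (h : i ≠ j) : dist i j = 1 := by rw [two_dist, if_neg h]

lemma conc_side {X X' : MM} {ε l k : ℝ} (hε : 0 ≤ ε) (hl : 0 ≤ l) (hk : 0 ≤ k)
    {φ : I → X.X} {φ' : I → X'.X} (hφ : IsParam X φ) (hφ' : IsParam X' φ')
    (H : ∀ f : X.X → ℝ, LipschitzWith 1 f → ∃ g : X'.X → ℝ, LipschitzWith 1 g ∧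
      volume.real {s | ε < |f (φ s) - g (φ' s)|} ≤ ε)
    {Θ : I → I × I} (t1 : Measurable Θ)
    (t2 : (volume : Measure I).map Θ = (volume : Measure I).prod volume) {ψ : I → TwoPt}
    {T : X.X × TwoPt → (P X l k).X} {T' : X'.X × TwoPt → (P X' l k).X}
    (a4 : ∀ w w', dist (T w) (T w') = l * dist w.1 w'.1 + k * dist w.2 w'.2)
    (b3 : Function.Surjective T')
    (b4 : ∀ w w', dist (T' w) (T' w') = l * dist w.1 w'.1 + k * dist w.2 w'.2)
    (f : (P X l k).X → ℝ) (hf : LipschitzWith 1 f) :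
    ∃ f' : (P X' l k).X → ℝ, LipschitzWith 1 f' ∧
      volume.real {s | (2 + l) * ε < |f (T (φ (Θ s).1, ψ (Θ s).2)) -
        f' (T' (φ' (Θ s).1, ψ (Θ s).2))|} ≤ (2 + l) * ε := by
  have hh : ∀ w w', |f (T w) - f (T w')| ≤ l * dist w.1 w'.1 + k * dist w.2 w'.2 := by
    intro w w'
    have h1 := hf.dist_le_mul (T w) (T w')
    rw [Real.dist_eq, NNReal.coe_one, one_mul, a4] at h1
    exact h1
  have hlip : ∀ i : TwoPt, LipschitzWith ⟨l, hl⟩ (fun x => f (T (x, i))) := by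
    intro i
    refine LipschitzWith.of_dist_le_mul fun x y => ?_
    have h1 := hh (x, i) (y, i)
    simp only [dist_self, mul_zero, add_zero] at h1
    rw [Real.dist_eq]
    exact h1
  obtain ⟨v1, hv1, e1⟩ := lip_l H hε ⟨l, hl⟩ _ (hlip tt)
  obtain ⟨v2, hv2, e2⟩ := lip_l H hε ⟨l, hl⟩ _ (hlip ff)
  have e1' : volume.real {s | l * ε < |f (T (φ s, tt)) - v1 (φ' s)|} ≤ ε := e1
  have e2' : volume.real {s | l * ε < |f (T (φ s, ff)) - v2 (φ' s)|} ≤ ε := e2
  have hv1' : ∀ x y, v1 x ≤ v1 y + l * dist x y := by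
    intro x y
    have h1 := hv1.dist_le_mul x y
    rw [Real.dist_eq] at h1
    have h2 := le_abs_self (v1 x - v1 y)
    have h3 : |v1 x - v1 y| ≤ l * dist x y := h1
    linarith
  have hv2' : ∀ x y, v2 x ≤ v2 y + l * dist x y := by
    intro x y
    have h1 := hv2.dist_le_mul x y
    rw [Real.dist_eq] at h1
    have h2 := le_abs_self (v2 x - v2 y)
    have h3 : |v2 x - v2 y| ≤ l * dist x y := h1
    linarith
  set v3 : X'.X → ℝ := fun x => max (v1 x - k) (min (v2 x) (v1 x + k)) with hv3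
  have hv3' : ∀ x y, v3 x ≤ v3 y + l * dist x y := by
    intro x y
    have q1 := hv1' x y
    have q2 := hv2' x y
    have q3 : v1 y - k ≤ v3 y := le_max_left _ _
    have q4 : min (v2 y) (v1 y + k) ≤ v3 y := le_max_right _ _
    refine max_le (by linarith) ?_
    have q5 : min (v2 x) (v1 x + k) ≤ min (v2 y) (v1 y + k) + l * dist x y := by
      rcases le_total (v2 y) (v1 y + k) with h | h
      · rw [min_eq_left h]
        exact (min_le_left _ _).trans q2
      · rw [min_eq_right h]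
        refine (min_le_right _ _).trans (by linarith)
    linarith
  have hv13 : ∀ x, v3 x ≤ v1 x + k ∧ v1 x - k ≤ v3 x := by
    intro x
    exact ⟨max_le (by linarith) (min_le_right _ _), le_max_left _ _⟩
  set h' : X'.X × TwoPt → ℝ := fun w => if w.2 = tt then v1 w.1 else v3 w.1 with hh'
  have hle : ∀ w w', h' w ≤ h' w' + (l * dist w.1 w'.1 + k * dist w.2 w'.2) := by
    rintro ⟨x, i⟩ ⟨y, j⟩
    have n1 := mul_nonneg hl (dist_nonneg (x := x) (y := y))
    rcases two_cases i with rfl | rfl <;> rcases two_cases j with rfl | rfl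
    · simp only [hh', if_true, dist_self, mul_zero, add_zero]
      exact hv1' x y
    · simp only [hh', if_true, if_neg tt_ne_ff.symm, two_dist_ne tt_ne_ff, mul_one]
      have := hv1' x y
      have := (hv13 y).2
      linarith
    · simp only [hh', if_true, if_neg tt_ne_ff.symm, two_dist_ne tt_ne_ff.symm, mul_one]
      have := hv1' x y
      have := (hv13 x).1
      linarith
    · simp only [hh', if_neg tt_ne_ff.symm, dist_self, mul_zero, add_zero]
      exact hv3' x y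
  have hf' : ∀ w, h' (Function.surjInv b3 (T' w)) = h' w := by
    intro w
    have z : dist (T' (Function.surjInv b3 (T' w))) (T' w) = 0 := by
      rw [Function.surjInv_eq b3 (T' w), dist_self]
    rw [b4] at z
    have q1 := hle (Function.surjInv b3 (T' w)) w
    have q2 := hle w (Function.surjInv b3 (T' w))
    rw [dist_comm w.1, dist_comm w.2] at q2
    linarith
  refine ⟨fun z => h' (Function.surjInv b3 z), LipschitzWith.of_le_add fun z z' => ?_, ?_⟩
  · have q1 := hle (Function.surjInv b3 z) (Function.surjInv b3 z')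
    rw [← b4, Function.surjInv_eq b3 z, Function.surjInv_eq b3 z'] at q1
    exact q1
  · have c1 : Continuous fun x => f (T (x, tt)) := (hlip tt).continuous
    have c2 : Continuous fun x => f (T (x, ff)) := (hlip ff).continuous
    have mB1 : MeasurableSet {s | l * ε < |f (T (φ s, tt)) - v1 (φ' s)|} :=
      measurableSet_lt measurable_const
        ((c1.measurable.comp hφ.1).sub (hv1.continuous.measurable.comp hφ'.1)).abs
    have mB2 : MeasurableSet {s | l * ε < |f (T (φ s, ff)) - v2 (φ' s)|} :=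
      measurableSet_lt measurable_const
        ((c2.measurable.comp hφ.1).sub (hv2.continuous.measurable.comp hφ'.1)).abs
    have hsub : {s | (2 + l) * ε < |f (T (φ (Θ s).1, ψ (Θ s).2)) -
        h' (Function.surjInv b3 (T' (φ' (Θ s).1, ψ (Θ s).2)))|} ⊆
        ((fun s => (Θ s).1) ⁻¹' {s | l * ε < |f (T (φ s, tt)) - v1 (φ' s)|}) ∪
        ((fun s => (Θ s).1) ⁻¹' {s | l * ε < |f (T (φ s, ff)) - v2 (φ' s)|}) := by
      intro s hs
      by_contra hcon
      rw [mem_union, not_or] at hcon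
      have g1 : |f (T (φ (Θ s).1, tt)) - v1 (φ' (Θ s).1)| ≤ l * ε := not_lt.1 hcon.1
      have g2 : |f (T (φ (Θ s).1, ff)) - v2 (φ' (Θ s).1)| ≤ l * ε := not_lt.1 hcon.2
      have hs' : (2 + l) * ε < |f (T (φ (Θ s).1, ψ (Θ s).2)) -
        h' (Function.surjInv b3 (T' (φ' (Θ s).1, ψ (Θ s).2)))| := hs
      rw [hf'] at hs'
      have g3 := hh (φ (Θ s).1, tt) (φ (Θ s).1, ff)
      simp only [dist_self, mul_zero, zero_add, two_dist_ne tt_ne_ff, mul_one] at g3
      rw [abs_le] at g1 g2 g3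
      have key : |f (T (φ (Θ s).1, ψ (Θ s).2)) - h' (φ' (Θ s).1, ψ (Θ s).2)| ≤ l * ε := by
        rcases two_cases (ψ (Θ s).2) with hi | hi
        · rw [hi]
          simp only [hh', if_true]
          rw [abs_le]
          constructor <;> linarith
        · rw [hi]
          simp only [hh', if_neg tt_ne_ff.symm]
          have u1 : v3 (φ' (Θ s).1) ≤ f (T (φ (Θ s).1, ff)) + l * ε :=
            max_le (by linarith) ((min_le_left _ _).trans (by linarith))
          have u2 : f (T (φ (Θ s).1, ff)) - l * ε ≤ v3 (φ' (Θ s).1) :=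
            (le_min (by linarith) (by linarith)).trans (le_max_right _ _)
          rw [abs_le]
          constructor <;> linarith
      nlinarith
    refine (measureReal_mono hsub).trans ((measureReal_union_le _ _).trans ?_)
    rw [theta_real t1 t2 mB1, theta_real t1 t2 mB2]
    nlinarith

lemma prod_conc {X X' : MM} {ε l k : ℝ} (hε : 0 ≤ ε) (hl : 0 ≤ l) (hk : 0 ≤ k)
    (h : ConcLE ε X X') : ConcLE ((2 + l) * ε) (P X l k) (P X' l k) := by
  obtain ⟨φ, φ', h1, h2, h3, h4⟩ := h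
  obtain ⟨Θ, t1, t2⟩ := exists_theta
  obtain ⟨ψ, p1, p2⟩ := exists_two
  obtain ⟨T, a1, a2, a3, a4⟩ := hasT X l k hl hk
  obtain ⟨T', b1, b2, b3, b4⟩ := hasT X' l k hl hk
  refine ⟨_, _, param_T h1 t1 t2 p1 p2 a1 a2, param_T h2 t1 t2 p1 p2 b1 b2,
    fun f hf => conc_side hε hl hk h1 h2 h3 t1 t2 a4 b3 b4 f hf, fun g hg => ?_⟩
  have h4' : ∀ g : X'.X → ℝ, LipschitzWith 1 g → ∃ f : X.X → ℝ, LipschitzWith 1 f ∧
      volume.real {s | ε < |g (φ' s) - f (φ s)|} ≤ ε := by
    intro g hg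
    obtain ⟨f, hf, h⟩ := h4 g hg
    refine ⟨f, hf, ?_⟩
    simpa only [abs_sub_comm] using h
  obtain ⟨f, hf, h⟩ := conc_side (ψ := ψ) hε hl hk h2 h1 h4' t1 t2 b4 a3 a4 g hg
  refine ⟨f, hf, ?_⟩
  simpa only [abs_sub_comm] using h

end Pool.Agent.V1215.MMS
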