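import Pool.Agent.V1215.MMS.M3
import Pool.Agent.V1215.MMS.M4

/-! # The scale function and continuity -/

set_option autoImplicit false

open MeasureTheory ProbabilityTheory Set unitInterval Topology Filter

namespace Pool.Agent.V1215.MMS

/-- relations for which the homotopies are continuous -/
class IsGood (R : ℝ → MM → MM → Prop) : Prop extends IsRel R where
  of_box : ∀ ε X Y, 0 ≤ ε → BoxLE ε X Y → R ε X Y
  to_conc : ∀ ε X Y, 0 ≤ ε → R ε X Y → ConcLE ε X Y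
  prod : ∀ ε l k X Y, 0 ≤ ε → 0 ≤ l → 0 ≤ k → R ε X Y → R ((2 + l) * ε) (P X l k) (P Y l k)

instance : IsGood BoxLE where
  of_box _ _ _ _ h := h
  to_conc _ _ _ hε h := box_conc hε h
  prod _ _ _ _ _ hε hl hk h := prod_box hε hl hk h

instance : IsGood ConcLE where
  of_box _ _ _ hε h := box_conc hε h
  to_conc _ _ _ _ h := h
  prod _ _ _ _ _ hε hl hk h := prod_conc hε hl hk h

/-- the scale function -/
noncomputable def mm (Z : MM) (τ : ℝ) : ℝ := sSup {a | 0 < a ∧ τ < GG Z a}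

section
variable {Z : MM} {τ a b : ℝ}

lemma mm_bdd (hτ : 0 < τ) : BddAbove {a | 0 < a ∧ τ < GG Z a} := by
  obtain ⟨b, hb, h⟩ := GG_small (Z := Z) hτ
  refine ⟨b, fun a ha => ?_⟩
  by_contra hcon
  have := GG_anti (Z := Z) hb (not_le.1 hcon).le
  linarith [ha.2]

lemma mm_nonneg : 0 ≤ mm Z τ := Real.sSup_nonneg fun _ h => h.1.le

lemma lt_mm (hτ : 0 < τ) (ha : 0 < a) : a < mm Z τ ↔ τ < GG Z a := by
  constructor
  · intro h
    obtain ⟨b, hb, hab⟩ := exists_lt_of_lt_csSup (by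
      by_contra hne
      rw [not_nonempty_iff_eq_empty] at hne
      unfold mm at h
      rw [hne, Real.sSup_empty] at h
      linarith) h
    exact hb.2.trans_le (GG_anti ha hab.le)
  · intro h
    have hd : 0 < (GG Z a - τ) * a / 2 := by
      have := sub_pos.2 h
      positivity
    have h1 := GG_close (Z := Z) ha (by linarith : a ≤ a + (GG Z a - τ) * a / 2)
    have h2 : (a + (GG Z a - τ) * a / 2 - a) / a = (GG Z a - τ) / 2 := by field_simp; ring
    rw [h2] at h1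
    have h3 : a + (GG Z a - τ) * a / 2 ≤ mm Z τ := le_csSup (mm_bdd hτ) ⟨by linarith, by linarith⟩
    linarith

lemma mm_lt (hτ : 0 < τ) (hb : 0 < b) : mm Z τ < b ↔ GG Z b < τ := by
  constructor
  · intro h
    rcases (GG_nonneg (Z := Z) hb).eq_or_lt with h0 | h0
    · rw [← h0]; exact hτ
    · have hm := mm_nonneg (Z := Z) (τ := τ)
      have h1 : 0 < (mm Z τ + b) / 2 := by linarith
      have h2 := GG_strict (Z := Z) h1 (by linarith : (mm Z τ + b) / 2 < b) h0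
      have h3 : ¬ (τ < GG Z ((mm Z τ + b) / 2)) := by
        rw [← lt_mm hτ h1]
        linarith
      linarith [not_lt.1 h3]
  · intro h
    by_contra hcon
    rw [not_lt] at hcon
    have hc : ∀ a, 0 < a → a < b → τ < GG Z a := fun a ha hab => (lt_mm hτ ha).1 (by linarith)
    have hd : 0 < (τ - GG Z b) / (1 + (τ - GG Z b)) * b := by
      have := sub_pos.2 h
      positivity
    set u := τ - GG Z b with hu
    have hu0 : 0 < u := sub_pos.2 h
    have h1 : 0 < b / (1 + u) := by positivity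
    have h2 : b / (1 + u) < b := div_lt_self hb (by linarith)
    have h3 := GG_close (Z := Z) h1 h2.le
    have h4 : (b - b / (1 + u)) / (b / (1 + u)) = u := by field_simp; ring
    rw [h4] at h3
    have h5 := hc _ h1 h2
    linarith

lemma mm_scale {s : ℝ} (hs : 0 < s) (hτ : 0 < τ) : mm (scale Z s hs) τ = s * mm Z τ := by
  have key : ∀ c, 0 < c → (c < mm (scale Z s hs) τ ↔ c < s * mm Z τ) := by
    intro c hc
    have h1 : c = s * (c / s) := by field_simp
    rw [lt_mm hτ hc]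
    conv_lhs => rw [h1]
    rw [GG_scale hs Z (div_pos hc hs), ← lt_mm hτ (div_pos hc hs), div_lt_iff₀ hs, mul_comm]
  have p1 := mm_nonneg (Z := scale Z s hs) (τ := τ)
  have p2 : 0 ≤ s * mm Z τ := mul_nonneg hs.le mm_nonneg
  refine le_antisymm ?_ ?_
  · by_contra hcon
    rw [not_le] at hcon
    have := (key ((mm (scale Z s hs) τ + s * mm Z τ) / 2) (by linarith)).1 (by linarith)
    linarith
  · by_contra hcon
    rw [not_le] at hcon
    have := (key ((mm (scale Z s hs) τ + s * mm Z τ) / 2) (by linarith)).2 (by linarith)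
    linarith

end

/-- an mm-space as a point of the pseudometric space defined by `R` -/
def toSp (R : ℝ → MM → MM → Prop) (Z : MM) : Sp R := Z

section
variable {R : ℝ → MM → MM → Prop} [IsGood R]

lemma rel_of_dist {X Y : Sp R} {ε : ℝ} (h : dist X Y < ε) : R ε X Y := rel_of_lt h

lemma dist_le_of {X Y : Sp R} {ε : ℝ} (h0 : 0 ≤ ε) (h : R ε X Y) : dist X Y ≤ ε := rdist_le h0 h

lemma GG_cont {a : ℝ} (ha : 0 < a) : Continuous fun Z : Sp R => GG Z a := by
  have h0 : ∀ X Y : Sp R, GG X a ≤ GG Y a + (2 / a + 2) * dist X Y := by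
    intro X Y
    refine le_of_forall_pos_lt_add fun η hη => ?_
    have hc : 0 < 2 / a + 2 := by positivity
    have hd : 0 < η / (2 * (2 / a + 2)) := by positivity
    have h1 : R (dist X Y + η / (2 * (2 / a + 2))) X Y := rel_of_dist (by linarith)
    have hp : (0 : ℝ) ≤ dist X Y + η / (2 * (2 / a + 2)) := by
      have := dist_nonneg (x := X) (y := Y)
      linarith
    have h2 := GG_conc ha hp (IsGood.to_conc _ _ _ hp h1)
    have h3 : (2 * (dist X Y + η / (2 * (2 / a + 2))) / a + 2 * (dist X Y + η / (2 * (2 / a + 2)))) =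
        (2 / a + 2) * dist X Y + η / 2 := by
      field_simp
    linarith
  have hK : 0 ≤ 2 / a + 2 := by positivity
  refine (LipschitzWith.of_dist_le_mul (K := ⟨2 / a + 2, hK⟩) fun X Y => ?_).continuous
  rw [Real.dist_eq, abs_le]
  have e1 := h0 X Y
  have e2 := h0 Y X
  rw [dist_comm Y X] at e2
  show -((2 / a + 2) * dist X Y) ≤ _ ∧ _ ≤ (2 / a + 2) * dist X Y
  constructor <;> linarith

lemma mm_cont {α : Type*} {F : Filter α} {Z : α → Sp R} {τ : α → ℝ} {Z0 : Sp R} {τ0 : ℝ}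
    (hτ0 : 0 < τ0) (hZ : Tendsto Z F (𝓝 Z0)) (hτ : Tendsto τ F (𝓝 τ0)) :
    Tendsto (fun x => mm (Z x) (τ x)) F (𝓝 (mm Z0 τ0)) := by
  have hpos : ∀ᶠ x in F, 0 < τ x := hτ.eventually (lt_mem_nhds hτ0)
  have hG : ∀ a, 0 < a → Tendsto (fun x => GG (Z x) a) F (𝓝 (GG Z0 a)) := fun a ha =>
    ((GG_cont (R := R) ha).tendsto Z0).comp hZ
  refine tendsto_order.2 ⟨fun a ha => ?_, fun b hb => ?_⟩
  · rcases lt_or_ge a 0 with h0 | h0
    · exact Eventually.of_forall fun x => h0.trans_le mm_nonneg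
    · have h1 : 0 < (a + mm Z0 τ0) / 2 := by linarith
      have h2 := (lt_mm (Z := Z0) hτ0 h1).1 (by linarith)
      have h3 := (hτ.eventually_lt (hG _ h1) h2)
      filter_upwards [h3, hpos] with x hx hx'
      have := (lt_mm hx' h1).2 hx
      linarith
  · have h1 : 0 < b := lt_of_le_of_lt mm_nonneg hb
    have h2 := (mm_lt (Z := Z0) hτ0 h1).1 hb
    filter_upwards [(hG _ h1).eventually_lt hτ h2, hpos] with x hx hx'
    exact (mm_lt hx' h1).2 hx

lemma P_cont {α : Type*} {F : Filter α} {Z : α → Sp R} {l k : α → ℝ} {Z0 : Sp R} {l0 k0 : ℝ}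
    (hZ : Tendsto Z F (𝓝 Z0)) (hl : Tendsto l F (𝓝 l0)) (hk : Tendsto k F (𝓝 k0))
    (hl0 : 0 ≤ l0) (hk0 : 0 ≤ k0) (hl' : ∀ᶠ x in F, 0 ≤ l x) (hk' : ∀ᶠ x in F, 0 ≤ k x) :
    Tendsto (fun x => toSp R (P (Z x) (l x) (k x))) F (𝓝 (toSp R (P Z0 l0 k0))) := by
  rw [Metric.tendsto_nhds]
  intro ε hε
  obtain ⟨δ, hδ, hb⟩ := par_box Z0 hl0 hk0 (show 0 < ε / 4 by linarith)
  have hη : 0 < ε / (4 * (3 + l0)) := by positivity
  filter_upwards [Metric.tendsto_nhds.1 hZ _ hη, Metric.tendsto_nhds.1 hl _ hδ,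
    Metric.tendsto_nhds.1 hk _ hδ, Metric.tendsto_nhds.1 hl 1 one_pos, hl', hk'] with
    x h1 h2 h3 h4 h5 h6
  rw [Real.dist_eq] at h2 h3 h4
  have e1 := IsGood.prod _ _ _ _ _ hη.le h5 h6 (rel_of_dist h1)
  have e2 : dist (toSp R (P (Z x) (l x) (k x))) (toSp R (P Z0 (l x) (k x))) ≤
      (2 + l x) * (ε / (4 * (3 + l0))) := dist_le_of (mul_nonneg (by linarith) hη.le) e1
  have e3 : dist (toSp R (P Z0 (l x) (k x))) (toSp R (P Z0 l0 k0)) ≤ ε / 4 :=
    dist_le_of (by linarith) (IsGood.of_box _ _ _ (by linarith) (hb _ _ h5 h6 h2 h3))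
  have e4 : (2 + l x) * (ε / (4 * (3 + l0))) ≤ ε / 4 := by
    have h7 : l x ≤ l0 + 1 := by linarith [(abs_lt.1 h4).2]
    have h8 : (2 + l x) * (ε / (4 * (3 + l0))) ≤ (3 + l0) * (ε / (4 * (3 + l0))) :=
      mul_le_mul_of_nonneg_right (by linarith) hη.le
    have h9 : (3 + l0) * (ε / (4 * (3 + l0))) = ε / 4 := by field_simp
    linarith
  have e5 := dist_triangle (toSp R (P (Z x) (l x) (k x))) (toSp R (P Z0 (l x) (k x))) (toSp R (P Z0 l0 k0))
  linarith

end

/-! ### Identifications -/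

lemma idA (X : MM) {s l k : ℝ} (hs : 0 < s) (hl : 0 ≤ l) (hk : 0 ≤ k) :
    BoxLE 0 (P (scale X s hs) l k) (P X (s * l) k) := by
  obtain ⟨φ, h1⟩ := exists_param X
  obtain ⟨Θ, t1, t2⟩ := exists_theta
  obtain ⟨ψ, p1, p2⟩ := exists_two
  obtain ⟨T, a1, a2, -, a4⟩ := hasT (scale X s hs) l k hl hk
  obtain ⟨T', b1, b2, -, b4⟩ := hasT X (s * l) k (mul_nonneg hs.le hl) hk
  have h1' : IsParam (scale X s hs) φ := h1
  refine ⟨_, _, univ, param_T h1' t1 t2 p1 p2 a1 a2, param_T h1 t1 t2 p1 p2 b1 b2,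
    MeasurableSet.univ, by simp, fun u _ v _ => ?_⟩
  rw [a4, b4]
  have e : (dist (α := (scale X s hs).X) (φ (Θ u).1) (φ (Θ v).1) : ℝ) =
    s * dist (α := X.X) (φ (Θ u).1) (φ (Θ v).1) := rfl
  simp only
  rw [e]
  have e2 : l * (s * dist (φ (Θ u).1) (φ (Θ v).1)) + k * dist (ψ (Θ u).2) (ψ (Θ v).2) -
      (s * l * dist (φ (Θ u).1) (φ (Θ v).1) + k * dist (ψ (Θ u).2) (ψ (Θ v).2)) = 0 := by ring
  rw [e2, abs_zero]

lemma idB (X : MM) {c l k : ℝ} (hc : 0 < c) (hl : 0 ≤ l) (hk : 0 ≤ k) :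
    BoxLE 0 (scale (P X l k) c hc) (P X (c * l) (c * k)) := by
  obtain ⟨φ, h1⟩ := exists_param X
  obtain ⟨Θ, t1, t2⟩ := exists_theta
  obtain ⟨ψ, p1, p2⟩ := exists_two
  obtain ⟨T, a1, a2, -, a4⟩ := hasT X l k hl hk
  obtain ⟨T', b1, b2, -, b4⟩ := hasT X (c * l) (c * k) (mul_nonneg hc.le hl) (mul_nonneg hc.le hk)
  have h2 : IsParam (scale (P X l k) c hc) (fun s => T (φ (Θ s).1, ψ (Θ s).2)) :=
    param_T h1 t1 t2 p1 p2 a1 a2
  refine ⟨_, _, univ, h2, param_T h1 t1 t2 p1 p2 b1 b2, MeasurableSet.univ, by simp,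
    fun u _ v _ => ?_⟩
  rw [b4]
  have e : (dist (α := (scale (P X l k) c hc).X) (T (φ (Θ u).1, ψ (Θ u).2))
      (T (φ (Θ v).1, ψ (Θ v).2)) : ℝ) =
    c * dist (α := (P X l k).X) (T (φ (Θ u).1, ψ (Θ u).2)) (T (φ (Θ v).1, ψ (Θ v).2)) := rfl
  rw [e, a4]
  simp only
  have e2 : c * (l * dist (φ (Θ u).1) (φ (Θ v).1) + k * dist (ψ (Θ u).2) (ψ (Θ v).2)) -
      (c * l * dist (φ (Θ u).1) (φ (Θ v).1) + c * k * dist (ψ (Θ u).2) (ψ (Θ v).2)) = 0 := by ring
  rw [e2, abs_zero]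

lemma idC (X : MM) : BoxLE 0 (P X 1 0) X := by
  obtain ⟨φ, h1⟩ := exists_param X
  obtain ⟨Θ, t1, t2⟩ := exists_theta
  obtain ⟨ψ, p1, p2⟩ := exists_two
  obtain ⟨T, a1, a2, -, a4⟩ := hasT X 1 0 zero_le_one le_rfl
  have hv : (volume : Measure I).map (fun s => (Θ s).1) = volume := by
    have e1 : (volume : Measure I).map (fun s => (Θ s).1) =
        ((volume : Measure I).map Θ).map Prod.fst := by
      rw [Measure.map_map measurable_fst t1]
      rfl
    rw [e1, t2, ← Measure.fst, Measure.fst_prod]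
  refine ⟨_, _, univ, param_T h1 t1 t2 p1 p2 a1 a2, h1.comp t1.fst hv, MeasurableSet.univ, by simp,
    fun u _ v _ => ?_⟩
  rw [a4]
  simp

lemma idD (X Y : MM) {k : ℝ} (hk : 0 ≤ k) : BoxLE 0 (P X 0 k) (P Y 0 k) := by
  obtain ⟨φ, h1⟩ := exists_param X
  obtain ⟨φ', h1'⟩ := exists_param Y
  obtain ⟨Θ, t1, t2⟩ := exists_theta
  obtain ⟨ψ, p1, p2⟩ := exists_two
  obtain ⟨T, a1, a2, -, a4⟩ := hasT X 0 k le_rfl hk
  obtain ⟨T', b1, b2, -, b4⟩ := hasT Y 0 k le_rfl hk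
  refine ⟨_, _, univ, param_T h1 t1 t2 p1 p2 a1 a2, param_T h1' t1 t2 p1 p2 b1 b2,
    MeasurableSet.univ, by simp, fun u _ v _ => ?_⟩
  rw [a4, b4]
  simp

/-! ### Spaces which are not points -/

/-- the measure is not a point mass -/
def NT (Z : MM) : Prop := ¬ ∃ z0, ∀ᵐ z ∂Z.μ, z = z0

lemma box_point {Z : MM} (h : ¬ NT Z) : BoxLE 0 Z point := by
  obtain ⟨z0, hz⟩ := not_not.1 h
  obtain ⟨φ, h1⟩ := exists_param Z
  have hm : MeasurableSet {z : Z.X | z = z0} := measurableSet_singleton z0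
  have h2 : ∀ᵐ s, φ s = z0 := by
    rw [← h1.2, ae_map_iff h1.1.aemeasurable hm] at hz
    exact hz
  refine ⟨φ, fun _ => PUnit.unit, φ ⁻¹' {z | z = z0}, h1, ⟨measurable_const, ?_⟩, h1.1 hm, ?_,
    fun s hs t ht => ?_⟩
  · show (volume : Measure I).map (fun _ => PUnit.unit) = Measure.dirac PUnit.unit
    rw [Measure.map_const]
    simp
  · have e1 : volume (φ ⁻¹' {z | z = z0}) = 1 :=
      (prob_compl_eq_zero_iff (h1.1 hm)).1 (ae_iff.1 h2)
    rw [Measure.real, e1]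
    simp
  · have e1 : φ s = z0 := hs
    have e2 : φ t = z0 := ht
    rw [e1, e2, dist_self]
    have e3 : (dist (α := point.X) PUnit.unit PUnit.unit : ℝ) = 0 := dist_self _
    rw [e3]
    simp

lemma GG_point {a : ℝ} (ha : 0 < a) : GG point a = 0 := by
  refine le_antisymm (GG_le fun f hf => ?_) (GG_nonneg ha)
  refine le_of_eq ?_
  unfold NN
  have e1 : ∀ w : point.X × point.X, kk a |f w.1 - f w.2| = 0 := by
    intro w
    have : w.1 = w.2 := rfl
    rw [this]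
    simp [kk]
  simp only [e1]
  simp

lemma bool_ae {p : TwoPt → Prop} (h : ∀ᵐ i ∂boolMeas, p i) : p tt ∧ p ff := by
  rw [ae_iff] at h
  have h2 : ∀ i : TwoPt, boolMeas {i} ≠ 0 := by
    intro i
    unfold boolMeas
    rcases two_cases i with rfl | rfl
    · simp
    · simp
  constructor
  · by_contra hp
    exact h2 tt (measure_mono_null (by intro i hi; rw [mem_singleton_iff] at hi; rw [hi]; exact hp) h)
  · by_contra hp
    exact h2 ff (measure_mono_null (by intro i hi; rw [mem_singleton_iff] at hi; rw [hi]; exact hp) h)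

lemma NT_P {X : MM} {l k : ℝ} (hl : 0 ≤ l) (hk : 0 ≤ k) (h : 0 < k ∨ (0 < l ∧ NT X)) :
    NT (P X l k) := by
  rintro ⟨z0, hz⟩
  obtain ⟨T, a1, a2, -, a4⟩ := hasT X l k hl hk
  have hm : MeasurableSet {z : (P X l k).X | z = z0} := measurableSet_singleton z0
  rw [← a2, ae_map_iff a1.aemeasurable hm] at hz
  have h2 := Measure.ae_ae_of_ae_prod hz
  have h3 : ∀ᵐ x ∂X.μ, T (x, tt) = z0 ∧ T (x, ff) = z0 := by
    filter_upwards [h2] with x hx
    exact bool_ae hx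
  obtain ⟨x0, hx0⟩ := h3.exists
  rcases h with h | ⟨h, hX⟩
  · have e1 := a4 (x0, tt) (x0, ff)
    rw [hx0.1, hx0.2, dist_self] at e1
    simp only [dist_self, mul_zero, zero_add, two_dist_ne tt_ne_ff, mul_one] at e1
    linarith
  · refine hX ⟨x0, ?_⟩
    filter_upwards [h3] with x hx
    have e1 := a4 (x, tt) (x0, tt)
    rw [hx0.1, hx.1, dist_self] at e1
    simp only [dist_self, mul_zero, add_zero] at e1
    rcases mul_eq_zero.1 e1.symm with h4 | h4
    · exact absurd h4 h.ne'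
    · exact dist_eq_zero.1 h4

end Pool.Agent.V1215.MMS
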