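import Pool.Agent.V1215.MMS.M5

/-! # The space of mm-spaces, the punctured space, the scaling quotient -/

set_option autoImplicit false

open MeasureTheory ProbabilityTheory Set unitInterval Topology Filter

namespace Pool.Agent.V1215.MMS

/-- the metric space of all mm-spaces, two mm-spaces being identified when their distance is zero -/
abbrev XX (R : ℝ → MM → MM → Prop) [IsRel R] : Type 1 := SeparationQuotient (Sp R)

/-- the class of an mm-space -/
noncomputable def cl (R : ℝ → MM → MM → Prop) [IsRel R] (Z : MM) : XX R :=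
  SeparationQuotient.mk (toSp R Z)

/-- the class of the one point space -/
noncomputable def pt (R : ℝ → MM → MM → Prop) [IsRel R] : XX R := cl R point

/-- the punctured space -/
abbrev XS (R : ℝ → MM → MM → Prop) [IsRel R] : Type 1 := {x : XX R // x ≠ pt R}

/-- being in the same orbit of the scaling action: `x` and `y` are the classes of mm-spaces `X` and
`Y` such that `Y` is mm-isomorphic to `s X` for some `s > 0` -/
def scaleRel (R : ℝ → MM → MM → Prop) [IsRel R] (x y : XS R) : Prop :=
  ∃ (s : ℝ) (X Y : MM) (f : X.X → Y.X), 0 < s ∧ (∀ p q, dist (f p) (f q) = s * dist p q) ∧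
    X.μ.map f = Y.μ ∧ x.1 = cl R X ∧ y.1 = cl R Y

/-- the scaling quotient -/
abbrev Sig (R : ℝ → MM → MM → Prop) [IsRel R] : Type 1 := Quot (scaleRel R)

section
variable {R : ℝ → MM → MM → Prop} [IsGood R]

lemma cl_eq {X Y : MM} (h : BoxLE 0 X Y) : cl R X = cl R Y := by
  unfold cl
  rw [SeparationQuotient.mk_eq_mk, Metric.inseparable_iff]
  exact le_antisymm (dist_le_of le_rfl (IsGood.of_box _ _ _ le_rfl h)) dist_nonneg

lemma cl_insep {X Y : MM} (h : cl R X = cl R Y) : Inseparable (toSp R X) (toSp R Y) :=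
  SeparationQuotient.mk_eq_mk.1 h

lemma cl_GG {X Y : MM} (h : cl R X = cl R Y) {a : ℝ} (ha : 0 < a) : GG X a = GG Y a :=
  ((cl_insep h).map (GG_cont (R := R) ha)).eq

lemma cl_mm {X Y : MM} (h : cl R X = cl R Y) (τ : ℝ) : mm X τ = mm Y τ := by
  unfold mm
  congr 1
  ext a
  constructor
  · rintro ⟨h1, h2⟩
    exact ⟨h1, by rw [← cl_GG h h1]; exact h2⟩
  · rintro ⟨h1, h2⟩
    exact ⟨h1, by rw [cl_GG h h1]; exact h2⟩

lemma NT_iff {X : MM} : cl R X ≠ pt R ↔ NT X := by
  constructor
  · intro h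
    by_contra hcon
    exact h (cl_eq (box_point hcon))
  · intro h hcon
    have h1 := cl_GG hcon one_pos
    rw [GG_point one_pos] at h1
    exact (GG_pos h one_pos).ne' h1

lemma P_continuous {l k : ℝ} (hl : 0 ≤ l) (hk : 0 ≤ k) :
    Continuous fun Z : Sp R => toSp R (P Z l k) := by
  rw [continuous_iff_continuousAt]
  intro Z0
  exact P_cont tendsto_id tendsto_const_nhds tendsto_const_nhds hl hk
    (Eventually.of_forall fun _ => hl) (Eventually.of_forall fun _ => hk)

lemma cl_P {X Y : MM} (h : cl R X = cl R Y) {l k : ℝ} (hl : 0 ≤ l) (hk : 0 ≤ k) :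
    cl R (P X l k) = cl R (P Y l k) :=
  SeparationQuotient.mk_eq_mk.2 ((cl_insep h).map (P_continuous hl hk))

/-- representatives -/
abbrev MMs (R : ℝ → MM → MM → Prop) [IsRel R] : Type 1 :=
  {X : Sp R // SeparationQuotient.mk X ≠ pt R}

lemma MMs_NT (X : MMs R) : NT X.1 := (NT_iff (R := R)).1 X.2

/-- the class of a representative -/
noncomputable def qq (X : MMs R) : XS R := ⟨SeparationQuotient.mk X.1, X.2⟩

lemma qq_surj : Function.Surjective (qq (R := R)) := by
  rintro ⟨x, hx⟩
  obtain ⟨X, rfl⟩ := SeparationQuotient.surjective_mk x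
  exact ⟨⟨X, hx⟩, rfl⟩

lemma qq_inducing : IsInducing (qq (R := R)) := by
  have h : IsInducing (Subtype.val ∘ qq (R := R)) :=
    SeparationQuotient.isInducing_mk.comp IsInducing.subtypeVal
  exact (IsInducing.of_comp_iff IsInducing.subtypeVal).1 h

lemma qq_quot : IsQuotientMap (qq (R := R)) := by
  refine ⟨isCoinducing_iff.2 fun s => ⟨fun h => ?_, fun h => h.preimage qq_inducing.continuous⟩,
    qq_surj⟩
  obtain ⟨t, ht, h2⟩ := qq_inducing.isOpen_iff.1 h
  rwa [(preimage_injective.2 qq_surj) h2] at ht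

/-- a contractibility criterion -/
lemma contr_of {Y : Type*} [TopologicalSpace Y] {A : Type*} [TopologicalSpace A] {Q : A → Y}
    (hQ : IsQuotientMap Q) (K : Y × I → Y) (hK : Continuous fun p : A × I => K (Q p.1, p.2))
    (h0 : ∀ a, K (Q a, 0) = Q a) (y : Y) (h1 : ∀ a, K (Q a, 1) = y) : ContractibleSpace Y := by
  rw [contractible_iff_id_nullhomotopic]
  have hc : Continuous K := hQ.continuous_lift_prod_left hK
  refine ⟨y, ⟨⟨⟨fun p => K (p.2, p.1), hc.comp continuous_swap⟩, fun x => ?_, fun x => ?_⟩⟩⟩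
  · obtain ⟨a, rfl⟩ := hQ.surjective x
    exact h0 a
  · obtain ⟨a, rfl⟩ := hQ.surjective x
    exact h1 a

/-- a chosen representative -/
noncomputable def rep (x : XX R) : MM := Classical.choose (SeparationQuotient.surjective_mk x)

lemma rep_spec (x : XX R) : cl R (rep x) = x :=
  Classical.choose_spec (SeparationQuotient.surjective_mk x)

lemma rep_NT (x : XS R) : NT (rep x.1) := by
  rw [← NT_iff (R := R), rep_spec]
  exact x.2

lemma one_sub_nonneg' (t : I) : 0 ≤ 1 - (t : ℝ) := by linarith [t.2.2]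

lemma NT_H {X : MM} (h : NT X) (t : I) : NT (P X (1 - (t : ℝ)) t) := by
  refine NT_P (one_sub_nonneg' t) t.2.1 ?_
  rcases t.2.1.eq_or_lt with h0 | h0
  · right
    exact ⟨by linarith, h⟩
  · exact Or.inl h0

lemma XS_contr : ContractibleSpace (XS R) := by
  have hpt : NT (P point 0 1) := NT_P le_rfl zero_le_one (Or.inl one_pos)
  refine contr_of (A := MMs R) qq_quot (fun p => ⟨cl R (P (rep p.1.1) (1 - (p.2 : ℝ)) p.2),
    NT_iff.2 (NT_H (rep_NT p.1) p.2)⟩) ?_ ?_ ⟨cl R (P point 0 1), NT_iff.2 hpt⟩ ?_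
  · refine Continuous.subtype_mk ?_ _
    have e : (fun p : MMs R × I => cl R (P (rep (qq p.1).1) (1 - (p.2 : ℝ)) p.2)) =
        fun p : MMs R × I => SeparationQuotient.mk (toSp R (P p.1.1 (1 - (p.2 : ℝ)) p.2)) := by
      funext p
      exact cl_P (rep_spec _) (one_sub_nonneg' _) p.2.2.1
    rw [e]
    refine SeparationQuotient.continuous_mk.comp ?_
    rw [continuous_iff_continuousAt]
    intro p0
    refine P_cont (Z := fun p : MMs R × I => p.1.1) (l := fun p => 1 - (p.2 : ℝ))
      (k := fun p => (p.2 : ℝ)) ?_ ?_ ?_ (one_sub_nonneg' _) p0.2.2.1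
      (Eventually.of_forall fun p => one_sub_nonneg' _) (Eventually.of_forall fun p => p.2.2.1)
    · exact (continuous_subtype_val.comp continuous_fst).tendsto p0
    · exact (continuous_const.sub (continuous_subtype_val.comp continuous_snd)).tendsto p0
    · exact (continuous_subtype_val.comp continuous_snd).tendsto p0
  · intro a
    refine Subtype.ext ?_
    show cl R (P (rep (qq a).1) (1 - ((0 : I) : ℝ)) ((0 : I) : ℝ)) = cl R a.1
    rw [cl_P (rep_spec (qq a).1) (one_sub_nonneg' _) (0 : I).2.1]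
    simp only [Icc.coe_zero, sub_zero]
    exact cl_eq (idC a.1)
  · intro a
    refine Subtype.ext ?_
    show cl R (P (rep (qq a).1) (1 - ((1 : I) : ℝ)) ((1 : I) : ℝ)) = cl R (P point 0 1)
    simp only [Icc.coe_one, sub_self]
    exact cl_eq (idD _ _ zero_le_one)

end

end Pool.Agent.V1215.MMS
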