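import Pool.Agent.V1215.MMS.M6

/-! # The scaling quotient is contractible -/

set_option autoImplicit false

open MeasureTheory ProbabilityTheory Set unitInterval Topology Filter

namespace Pool.Agent.V1215.MMS

lemma idE (X Y : MM) {s : ℝ} (hs : 0 < s) {f : X.X → Y.X}
    (hf : ∀ p q, dist (f p) (f q) = s * dist p q) (hm : X.μ.map f = Y.μ) :
    BoxLE 0 (scale X s hs) Y := by
  obtain ⟨φ, h1⟩ := exists_param X
  have h1' : IsParam (scale X s hs) φ := h1
  have hfc : Continuous f :=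
    (LipschitzWith.of_dist_le_mul (K := ⟨s, hs.le⟩) fun p q => (hf p q).le).continuous
  have hfm : Measurable f := hfc.measurable
  refine ⟨φ, fun u => f (φ u), univ, h1', ⟨hfm.comp h1.1, ?_⟩, MeasurableSet.univ, by simp,
    fun u _ v _ => ?_⟩
  · rw [← hm, ← h1.2, Measure.map_map hfm h1.1]
    rfl
  · rw [hf]
    have e : (dist (α := (scale X s hs).X) (φ u) (φ v) : ℝ) = s * dist (α := X.X) (φ u) (φ v) := rfl
    rw [e, sub_self, abs_zero]

section
variable {R : ℝ → MM → MM → Prop} [IsGood R]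

/-- the class in the quotient -/
noncomputable def SG (R : ℝ → MM → MM → Prop) [IsGood R] (X : MM) (hX : NT X) : Sig R :=
  Quot.mk _ ⟨cl R X, NT_iff.2 hX⟩

lemma SG_eq {X Y : MM} (h : cl R X = cl R Y) (hX : NT X) (hY : NT Y) :
    SG R X hX = SG R Y hY := by
  unfold SG
  congr 1
  exact Subtype.ext h

lemma NT_scale {X : MM} {s : ℝ} (hs : 0 < s) (hX : NT X) : NT (scale X s hs) := hX

lemma SG_scale {X : MM} {s : ℝ} (hs : 0 < s) (hX : NT X) :
    SG R X hX = SG R (scale X s hs) (NT_scale hs hX) :=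
  Quot.sound ⟨s, X, scale X s hs, id, hs, fun _ _ => rfl, Measure.map_id, rfl, rfl⟩

/-- the homotopy -/
noncomputable def LL (X : MM) (t : ℝ) : MM :=
  if t < 1 then P X (1 - t) (t * mm X (1 - t)) else P X 0 1

lemma LL_lt {X : MM} {t : ℝ} (h : t < 1) : LL X t = P X (1 - t) (t * mm X (1 - t)) := if_pos h

lemma LL_one {X : MM} : LL X 1 = P X 0 1 := if_neg (lt_irrefl 1)

lemma NT_LL {X : MM} (hX : NT X) {t : ℝ} (h0 : 0 ≤ t) : NT (LL X t) := by
  unfold LL
  split_ifs with h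
  · exact NT_P (by linarith) (mul_nonneg h0 mm_nonneg) (Or.inr ⟨by linarith, hX⟩)
  · exact NT_P le_rfl zero_le_one (Or.inl one_pos)

lemma cl_LL {X Y : MM} (h : cl R X = cl R Y) {t : ℝ} (h0 : 0 ≤ t) :
    cl R (LL X t) = cl R (LL Y t) := by
  unfold LL
  split_ifs with h1
  · rw [cl_mm h]
    exact cl_P h (by linarith) (mul_nonneg h0 mm_nonneg)
  · exact cl_P h le_rfl zero_le_one

lemma SG_P_scale {X : MM} {c l k : ℝ} (hc : 0 < c) (hl : 0 ≤ l) (hk : 0 ≤ k) (h : NT (P X l k))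
    (h' : NT (P X (c * l) (c * k))) : SG R (P X (c * l) (c * k)) h' = SG R (P X l k) h := by
  rw [SG_scale hc h]
  exact SG_eq (cl_eq (idB X hc hl hk)).symm _ _

lemma SG_LL_scale {X : MM} {s : ℝ} (hs : 0 < s) (hX : NT X) {t : ℝ} (h0 : 0 ≤ t) :
    SG R (LL (scale X s hs) t) (NT_LL (NT_scale hs hX) h0) = SG R (LL X t) (NT_LL hX h0) := by
  rcases lt_or_ge t 1 with h1 | h1
  · have hm := mm_scale (Z := X) hs (sub_pos.2 h1)
    have hk : 0 ≤ t * mm X (1 - t) := mul_nonneg h0 mm_nonneg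
    have e : cl R (LL (scale X s hs) t) = cl R (P X (s * (1 - t)) (s * (t * mm X (1 - t)))) := by
      rw [LL_lt h1, hm]
      have e2 : t * (s * mm X (1 - t)) = s * (t * mm X (1 - t)) := by ring
      rw [e2]
      exact cl_eq (idA X hs (by linarith) (mul_nonneg hs.le hk))
    have n1 : NT (P X (1 - t) (t * mm X (1 - t))) := by
      rw [← LL_lt h1]
      exact NT_LL hX h0
    have n2 : NT (P X (s * (1 - t)) (s * (t * mm X (1 - t)))) := by
      rw [← NT_iff (R := R), ← e]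
      exact NT_iff.2 (NT_LL (NT_scale hs hX) h0)
    refine (SG_eq e _ n2).trans ((SG_P_scale hs (by linarith) hk n1 n2).trans ?_)
    exact SG_eq (by rw [LL_lt h1]) _ _
  · refine SG_eq ?_ _ _
    unfold LL
    rw [if_neg (not_lt.2 h1), if_neg (not_lt.2 h1)]
    exact cl_eq (idD _ _ zero_le_one)

/-- the scale factor near `t = 1` -/
noncomputable def rr (X : MM) (t : ℝ) : ℝ := if t < 1 then (1 - t) / mm X (1 - t) else 0

lemma rr_nonneg {X : MM} {t : ℝ} : 0 ≤ rr X t := by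
  unfold rr
  split_ifs with h
  · exact div_nonneg (by linarith) mm_nonneg
  · exact le_rfl

/-- the homotopy near `t = 1`, up to scaling -/
noncomputable def L2 (X : MM) (t : ℝ) : MM := P X (rr X t) (max t (1 / 2))

lemma NT_L2 (X : MM) (t : ℝ) : NT (L2 X t) :=
  NT_P rr_nonneg (le_max_of_le_right (by norm_num)) (Or.inl (lt_max_of_lt_right (by norm_num)))

lemma SG_L2 {X : MM} (hX : NT X) {t : ℝ} (h0 : 0 ≤ t) (h1 : 1 / 2 ≤ t) (h2 : t ≤ 1)
    (h3 : t < 1 → 0 < mm X (1 - t)) :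
    SG R (LL X t) (NT_LL hX h0) = SG R (L2 X t) (NT_L2 X t) := by
  rcases lt_or_ge t 1 with h | h
  · have hm := h3 h
    have e1 : L2 X t = P X ((1 - t) / mm X (1 - t)) t := by
      unfold L2 rr
      rw [if_pos h, max_eq_left h1]
    have e2 : LL X t = P X (mm X (1 - t) * ((1 - t) / mm X (1 - t))) (mm X (1 - t) * t) := by
      rw [LL_lt h, mul_div_cancel₀ _ hm.ne', mul_comm (mm X (1 - t)) t]
    have n1 : NT (P X ((1 - t) / mm X (1 - t)) t) := by
      rw [← e1]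
      exact NT_L2 X t
    have n2 : NT (P X (mm X (1 - t) * ((1 - t) / mm X (1 - t))) (mm X (1 - t) * t)) := by
      rw [← e2]
      exact NT_LL hX h0
    refine (SG_eq (by rw [e2]) _ n2).trans ((SG_P_scale hm (div_nonneg (by linarith) hm.le)
      h0 n1 n2).trans ?_)
    exact SG_eq (by rw [e1]) _ _
  · have ht : t = 1 := le_antisymm h2 h
    refine SG_eq ?_ _ _
    have e1 : L2 X t = P X 0 1 := by
      unfold L2 rr
      rw [ht, if_neg (lt_irrefl 1), max_eq_left (by norm_num)]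
    rw [e1, ht, LL_one]

/-- the homotopy on representatives -/
noncomputable def FF (p : MMs R × I) : Sig R :=
  SG R (LL p.1.1 p.2) (NT_LL (MMs_NT p.1) p.2.2.1)

lemma tendsto_SG {α : Type*} {F : Filter α} {Z : α → Sp R} {Z0 : Sp R} (hZ : ∀ a, NT (Z a))
    (h0 : NT Z0) (h : Tendsto Z F (𝓝 Z0)) :
    Tendsto (fun a => SG R (Z a) (hZ a)) F (𝓝 (SG R Z0 h0)) := by
  have h1 : Tendsto (fun a => (⟨cl R (Z a), NT_iff.2 (hZ a)⟩ : XS R)) F
      (𝓝 ⟨cl R Z0, NT_iff.2 h0⟩) := by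
    rw [tendsto_subtype_rng]
    exact (SeparationQuotient.continuous_mk.tendsto Z0).comp h
  exact (continuous_quot_mk.tendsto _).comp h1

lemma FF_cont : Continuous (FF (R := R)) := by
  rw [continuous_iff_continuousAt]
  rintro ⟨X0, t0⟩
  have hX : Tendsto (fun p : MMs R × I => p.1.1) (𝓝 (X0, t0)) (𝓝 X0.1) :=
    (continuous_subtype_val.comp continuous_fst).tendsto (X0, t0)
  have ht : Tendsto (fun p : MMs R × I => (p.2 : ℝ)) (𝓝 (X0, t0)) (𝓝 (t0 : ℝ)) :=
    (continuous_subtype_val.comp continuous_snd).tendsto (X0, t0)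
  have ht' : Tendsto (fun p : MMs R × I => 1 - (p.2 : ℝ)) (𝓝 (X0, t0)) (𝓝 (1 - (t0 : ℝ))) :=
    tendsto_const_nhds.sub ht
  show Tendsto (fun p : MMs R × I => SG R (LL p.1.1 p.2) (NT_LL (MMs_NT p.1) p.2.2.1))
    (𝓝 (X0, t0)) (𝓝 (SG R (LL X0.1 t0) (NT_LL (MMs_NT X0) t0.2.1)))
  rcases lt_or_ge (t0 : ℝ) 1 with h | h
  · refine tendsto_SG (Z := fun p : MMs R × I => toSp R (LL p.1.1 p.2))
      (Z0 := toSp R (LL X0.1 t0)) _ _ ?_
    have hc : Tendsto (fun p : MMs R × I =>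
        toSp R (P p.1.1 (1 - (p.2 : ℝ)) (p.2 * mm p.1.1 (1 - (p.2 : ℝ))))) (𝓝 (X0, t0))
        (𝓝 (toSp R (P X0.1 (1 - (t0 : ℝ)) (t0 * mm X0.1 (1 - (t0 : ℝ)))))) :=
      P_cont hX ht' (ht.mul (mm_cont (sub_pos.2 h) hX ht')) (one_sub_nonneg' _)
        (mul_nonneg t0.2.1 mm_nonneg) (Eventually.of_forall fun p => one_sub_nonneg' _)
        (Eventually.of_forall fun p => mul_nonneg p.2.2.1 mm_nonneg)
    have e1 : LL X0.1 t0 = P X0.1 (1 - (t0 : ℝ)) (t0 * mm X0.1 (1 - (t0 : ℝ))) := LL_lt h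
    rw [← e1] at hc
    refine hc.congr' ?_
    filter_upwards [ht.eventually_lt_const h] with p hp
    exact (congrArg (toSp R) (LL_lt (X := p.1.1) hp)).symm
  · have h01 : (t0 : ℝ) = 1 := le_antisymm t0.2.2 h
    have hG : 0 < GG X0.1 1 := GG_pos (MMs_NT X0) one_pos
    have ev : ∀ᶠ p : MMs R × I in 𝓝 (X0, t0), 1 - (p.2 : ℝ) < GG p.1.1 1 := by
      have h4 : Tendsto (fun p : MMs R × I => GG p.1.1 1) (𝓝 (X0, t0)) (𝓝 (GG X0.1 1)) :=
        ((GG_cont (R := R) one_pos).tendsto X0.1).comp hX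
      refine ht'.eventually_lt h4 ?_
      rw [h01, sub_self]
      exact hG
    have ev2 : ∀ᶠ p : MMs R × I in 𝓝 (X0, t0), 1 / 2 < (p.2 : ℝ) :=
      ht.eventually_const_lt (by rw [h01]; norm_num)
    have key : ∀ᶠ p : MMs R × I in 𝓝 (X0, t0),
        ((p.2 : ℝ) < 1 → 1 < mm p.1.1 (1 - (p.2 : ℝ))) := by
      filter_upwards [ev] with p hp h1
      exact (lt_mm (sub_pos.2 h1) one_pos).2 hp
    have hr : Tendsto (fun p : MMs R × I => rr p.1.1 p.2) (𝓝 (X0, t0)) (𝓝 0) := by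
      refine squeeze_zero' (Eventually.of_forall fun p => rr_nonneg)
        (g := fun p : MMs R × I => 1 - (p.2 : ℝ)) ?_ ?_
      · filter_upwards [key] with p hp
        unfold rr
        split_ifs with h1
        · exact div_le_self (one_sub_nonneg' _) (hp h1).le
        · exact one_sub_nonneg' _
      · rw [h01, sub_self] at ht'
        exact ht'
    have hk : Tendsto (fun p : MMs R × I => max (p.2 : ℝ) (1 / 2)) (𝓝 (X0, t0)) (𝓝 1) := by
      have h4 := ht.max (tendsto_const_nhds (x := (1 / 2 : ℝ)))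
      rw [h01, max_eq_left (by norm_num)] at h4
      exact h4
    have hc : Tendsto (fun p : MMs R × I => toSp R (L2 p.1.1 p.2)) (𝓝 (X0, t0))
        (𝓝 (toSp R (P X0.1 0 1))) :=
      P_cont hX hr hk le_rfl zero_le_one (Eventually.of_forall fun p => rr_nonneg)
        (Eventually.of_forall fun p => le_max_of_le_left p.2.2.1)
    have hP : NT (P X0.1 0 1) := NT_P le_rfl zero_le_one (Or.inl one_pos)
    have h3 := tendsto_SG (Z := fun p : MMs R × I => toSp R (L2 p.1.1 p.2))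
      (Z0 := toSp R (P X0.1 0 1)) (fun p => NT_L2 _ _) hP hc
    have e0 : SG R (LL X0.1 t0) (NT_LL (MMs_NT X0) t0.2.1) = SG R (P X0.1 0 1) hP :=
      SG_eq (by rw [h01]; exact congrArg (cl R) (LL_one (X := X0.1))) _ _
    rw [e0]
    refine h3.congr' ?_
    filter_upwards [key, ev2] with p h1 h2
    exact (SG_L2 (MMs_NT p.1) p.2.2.1 h2.le p.2.2.2 fun h => one_pos.trans (h1 h)).symm

/-- the homotopy on the punctured space -/
noncomputable def KX (x : XS R) (t : I) : Sig R :=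
  SG R (LL (rep x.1) t) (NT_LL (rep_NT x) t.2.1)

lemma KX_eq {X : MM} {x : XS R} (h : x.1 = cl R X) (hX : NT X) (t : I) :
    KX x t = SG R (LL X t) (NT_LL hX t.2.1) :=
  SG_eq (cl_LL ((rep_spec x.1).trans h) t.2.1) _ _

lemma KX_rel {x y : XS R} (h : scaleRel R x y) (t : I) : KX x t = KX y t := by
  obtain ⟨s, X, Y, f, hs, hf, hm, hx, hy⟩ := h
  have hX : NT X := by
    rw [← NT_iff (R := R), ← hx]
    exact x.2
  have e : cl R (scale X s hs) = cl R Y := cl_eq (idE X Y hs hf hm)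
  rw [KX_eq hx hX, KX_eq (hy.trans e.symm) (NT_scale hs hX), SG_LL_scale hs hX t.2.1]

lemma Sig_contr : ContractibleSpace (Sig R) := by
  have hpt : NT (P point 0 1) := NT_P le_rfl zero_le_one (Or.inl one_pos)
  have hQ : IsQuotientMap (fun a : MMs R => (Quot.mk (scaleRel R) (qq a) : Sig R)) :=
    isQuotientMap_quot_mk.comp qq_quot
  have hK : ∀ (a : MMs R) (t : I), Quot.lift (fun x => KX x t) (fun x y h => KX_rel h t)
      (Quot.mk (scaleRel R) (qq a)) = FF (a, t) := fun a t => KX_eq rfl (MMs_NT a) t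
  refine contr_of hQ (fun p => Quot.lift (fun x => KX x p.2) (fun x y h => KX_rel h p.2) p.1)
    ?_ ?_ (SG R (P point 0 1) hpt) ?_
  · have e : (fun p : MMs R × I => Quot.lift (fun x => KX x p.2) (fun x y h => KX_rel h p.2)
        (Quot.mk (scaleRel R) (qq p.1))) = FF := funext fun p => hK p.1 p.2
    exact e ▸ FF_cont
  · intro a
    refine (hK a 0).trans ?_
    refine SG_eq (Y := a.1) ?_ _ (MMs_NT a)
    have e : ∀ X : MM, LL X ((0 : I) : ℝ) = P X 1 0 := fun X => by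
      rw [Icc.coe_zero, LL_lt one_pos, sub_zero, zero_mul]
    show cl R (LL a.1 ((0 : I) : ℝ)) = cl R a.1
    exact (congrArg (cl R) (e a.1)).trans (cl_eq (idC a.1))
  · intro a
    refine (hK a 1).trans ?_
    refine SG_eq ?_ _ _
    show cl R (LL a.1 ((1 : I) : ℝ)) = cl R (P point 0 1)
    have e : ∀ X : MM, LL X ((1 : I) : ℝ) = P X 0 1 := fun X => by
      rw [Icc.coe_one, LL_one]
    exact (congrArg (cl R) (e a.1)).trans (cl_eq (idD _ _ zero_le_one))

end

end Pool.Agent.V1215.MMS
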